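import Mathlib

/-!
# MP_548ab2_lc, module 1: short-cycle-free graphs and gadgets

`Dk G k a b` : there is a walk of length at most `k` from `a` to `b` in `G`.
`NoShort k G` : no two distinct neighbours of a vertex `v` are joined by a walk of length
at most `k` avoiding `v` (equivalently, `G` has no cycle of length at most `k + 2`).
-/

namespace Pool.Agent.Lib_helper88.Stretch

open Finset

/-- There is a walk of length at most `k` from `a` to `b`. -/
inductive Dk {V : Type*} (G : SimpleGraph V) : ℕ → V → V → Prop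
  | refl (k : ℕ) (a : V) : Dk G k a a
  | step {k : ℕ} {a b c : V} : G.Adj a b → Dk G k b c → Dk G (k + 1) a c

/-- Remove the vertex `v` (keep it as an isolated vertex). -/
def del {V : Type*} (G : SimpleGraph V) (v : V) : SimpleGraph V where
  Adj a b := G.Adj a b ∧ a ≠ v ∧ b ≠ v
  symm := ⟨fun _ _ h => ⟨h.1.symm, h.2.2, h.2.1⟩⟩
  loopless := ⟨fun _ h => h.1.ne rfl⟩

/-- No two distinct neighbours of a vertex `v` are joined by a walk of length at most `k`
avoiding `v`. -/
def NoShort {V : Type*} (k : ℕ) (G : SimpleGraph V) : Prop :=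
  ∀ v p q : V, G.Adj v p → G.Adj v q → p ≠ q → ¬ Dk (del G v) k p q

/-- Add the edge `c d`. -/
def addE {V : Type*} (G : SimpleGraph V) (c d : V) (h : c ≠ d) : SimpleGraph V where
  Adj a b := G.Adj a b ∨ (a = c ∧ b = d) ∨ (a = d ∧ b = c)
  symm := ⟨fun a b hab => by
    rcases hab with h1 | ⟨rfl, rfl⟩ | ⟨rfl, rfl⟩
    · exact Or.inl h1.symm
    · exact Or.inr (Or.inr ⟨rfl, rfl⟩)
    · exact Or.inr (Or.inl ⟨rfl, rfl⟩)⟩
  loopless := ⟨fun a hab => by
    rcases hab with h1 | ⟨rfl, h2⟩ | ⟨rfl, h2⟩
    · exact h1.ne rfl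
    · exact h h2
    · exact h h2.symm⟩

/-- A gadget with new vertices `Fin N` and terminals `Fin m`: `Q` is the contracted graph in
which all old vertices are contracted to `none`; `att w = some j` means that the new vertex `w`
is joined to the terminal `j`. -/
structure Gadget (α m : ℕ) where
  N : ℕ
  Q : SimpleGraph (Option (Fin N))
  att : Fin N → Option (Fin m)
  att_iff : ∀ w, Q.Adj none (some w) ↔ att w ≠ none
  noShort : NoShort (2 * α) Q
  conn : ∀ w, Q.Reachable (some w) none

/-- The colouring property of the gadget for one growth step (terminals `0 = x`, `1 = y`):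
a colouring of the new vertices (`true` = near `x`, `false` = near `y`) has a vertex with two
neighbours of the colour opposite to its own. -/
def ColourProp {α : ℕ} (g : Gadget α 2) : Prop :=
  ∀ c : Fin g.N → Bool,
    (∀ w w₁ w₂, g.Q.Adj (some w) (some w₁) → g.Q.Adj (some w) (some w₂) →
      c w₁ ≠ c w → c w₂ ≠ c w → w₁ = w₂) →
    (∀ w₁ w₂, g.att w₁ = some 0 → g.att w₂ = some 0 → c w₁ = false → c w₂ = false → w₁ = w₂) →
    (∀ w₁ w₂, g.att w₁ = some 1 → g.att w₂ = some 1 → c w₁ = true → c w₂ = true → w₁ = w₂) →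
    False

/-- Statement of module 2. -/
def GrowthGadget : Prop := ∀ α : ℕ, ∃ g : Gadget α 2, ColourProp g

/-- The layer structure of the reduction gadget: the vertices of layer `0` are the seeds, each
vertex of a positive layer `j + 1` has two distinct neighbours in layer `j`, every terminal
has two distinct ports. -/
structure Layered {α m : ℕ} (g : Gadget α m) (k₀ R : ℕ) : Prop where
  ex : ∃ lay : Fin g.N → ℕ, (∀ w, lay w ≤ R) ∧
    (Finset.univ.filter (fun w => lay w = 0)).card ≤ k₀ ∧
    (∀ w, lay w ≠ 0 → ∃ a b, a ≠ b ∧ g.Q.Adj (some w) (some a) ∧ g.Q.Adj (some w) (some b) ∧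
      lay a + 1 = lay w ∧ lay b + 1 = lay w)
  ports : ∀ j : Fin m, ∃ a b, a ≠ b ∧ g.att a = some j ∧ g.att b = some j

/-- Statement of module 3. -/
def ReductionGadget : Prop := ∀ α q : ℕ, 1 ≤ q → ∃ k₀ : ℕ, ∀ m R : ℕ, 1 ≤ m →
  (2 * m) ^ (2 * α + 1) ≤ q ^ R → ∃ g : Gadget α m, Layered g k₀ R

end Pool.Agent.Lib_helper88.Stretch
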