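import Mathlib

/-!
# MP_548ab2_lc: weighted distances (definitions of the statement and basic lemmas)
-/

namespace Pool.Agent.Lib_helper88.Stretch

variable {V : Type*}

/-- The weight of a walk: the sum of the weights of its edges. -/
def walkWeight {G : SimpleGraph V} (w : Sym2 V → ℝ) {s t : V} (π : G.Walk s t) : ℝ :=
  (π.edges.map w).sum

/-- `w` is a positive weighting of the edges of `G`. -/
def IsWeighting (G : SimpleGraph V) (w : Sym2 V → ℝ) : Prop := ∀ e ∈ G.edgeSet, 0 < w e

/-- The distance from `s` to `t`: the minimum of the weights of the `s`–`t` paths. -/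
noncomputable def wdist (G : SimpleGraph V) (w : Sym2 V → ℝ) (s t : V) : ℝ :=
  ⨅ π : G.Path s t, walkWeight w (π : G.Walk s t)

/-- The aspect ratio: maximum edge weight divided by minimum edge weight. -/
noncomputable def aspectRatio (G : SimpleGraph V) (w : Sym2 V → ℝ) : ℝ :=
  (⨆ e : G.edgeSet, w e) / (⨅ e : G.edgeSet, w e)

/-- The reweighting `wH` is `α`-stretch shortest-paths preserving for `(G, wG)`. -/
def StretchPreserving (α : ℝ) (G : SimpleGraph V) (wG wH : Sym2 V → ℝ) : Prop :=
  ∀ (s t : V) (π : G.Walk s t), π.IsPath → walkWeight wH π = wdist G wH s t →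
    walkWeight wG π ≤ α * wdist G wG s t

section basic

variable {G : SimpleGraph V} {w : Sym2 V → ℝ}

@[simp] theorem walkWeight_nil {s : V} : walkWeight w (SimpleGraph.Walk.nil : G.Walk s s) = 0 := by
  simp [walkWeight]

@[simp] theorem walkWeight_cons {s t u : V} (h : G.Adj s t) (π : G.Walk t u) :
    walkWeight w (SimpleGraph.Walk.cons h π) = w s(s, t) + walkWeight w π := by
  simp [walkWeight]

theorem walkWeight_append {s t u : V} (π : G.Walk s t) (ρ : G.Walk t u) :
    walkWeight w (π.append ρ) = walkWeight w π + walkWeight w ρ := by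
  simp [walkWeight, SimpleGraph.Walk.edges_append]

theorem walkWeight_reverse {s t : V} (π : G.Walk s t) :
    walkWeight w π.reverse = walkWeight w π := by
  simp [walkWeight, SimpleGraph.Walk.edges_reverse, List.map_reverse, List.sum_reverse]

theorem walkWeight_nonneg (hw : IsWeighting G w) {s t : V} (π : G.Walk s t) :
    0 ≤ walkWeight w π := by
  induction π with
  | nil => simp
  | cons h p ih =>
    rw [walkWeight_cons]
    have := hw _ ((SimpleGraph.mem_edgeSet G).2 h)
    linarith

theorem walkWeight_eq_take_drop [DecidableEq V] {s t v : V} (π : G.Walk s t)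
    (hv : v ∈ π.support) : walkWeight w π = walkWeight w (π.takeUntil v hv) +
      walkWeight w (π.dropUntil v hv) := by
  conv_lhs => rw [← π.take_spec hv]
  rw [walkWeight_append]

theorem walkWeight_bypass_le [DecidableEq V] (hw : IsWeighting G w) {s t : V} (π : G.Walk s t) :
    walkWeight w π.bypass ≤ walkWeight w π := by
  induction π with
  | nil => simp [SimpleGraph.Walk.bypass]
  | @cons u v t h p ih =>
    rw [SimpleGraph.Walk.bypass]
    have hpos := hw _ ((SimpleGraph.mem_edgeSet G).2 h)
    rw [walkWeight_cons]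
    split_ifs with hs
    · have h1 := walkWeight_eq_take_drop (w := w) p.bypass hs
      have h2 := walkWeight_nonneg hw (p.bypass.takeUntil u hs)
      linarith
    · rw [walkWeight_cons]; linarith

variable [Fintype V] [DecidableEq V]

theorem bddBelow_paths (hw : IsWeighting G w) (s t : V) :
    BddBelow (Set.range fun π : G.Path s t => walkWeight w (π : G.Walk s t)) :=
  ⟨0, by rintro _ ⟨π, rfl⟩; exact walkWeight_nonneg hw _⟩

theorem wdist_le_walk (hw : IsWeighting G w) {s t : V} (π : G.Walk s t) :
    wdist G w s t ≤ walkWeight w π := by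
  refine le_trans ?_ (walkWeight_bypass_le hw π)
  exact ciInf_le (bddBelow_paths hw s t) (⟨π.bypass, π.bypass_isPath⟩ : G.Path s t)

theorem exists_shortest (hG : G.Connected) (s t : V) :
    ∃ π : G.Walk s t, π.IsPath ∧ walkWeight w π = wdist G w s t := by
  classical
  haveI : Nonempty (G.Path s t) := by
    obtain ⟨π⟩ := hG.preconnected s t
    exact ⟨π.toPath⟩
  haveI : Finite (G.Path s t) := Finite.of_fintype _
  obtain ⟨π, hπ⟩ := exists_eq_ciInf_of_finite (f := fun π : G.Path s t =>
    walkWeight w (π : G.Walk s t))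
  exact ⟨π, π.2, hπ⟩

theorem wdist_nonneg (hG : G.Connected) (hw : IsWeighting G w) (s t : V) :
    0 ≤ wdist G w s t := by
  obtain ⟨π, _, h⟩ := exists_shortest (w := w) hG s t
  rw [← h]
  exact walkWeight_nonneg hw π

theorem wdist_self (hG : G.Connected) (hw : IsWeighting G w) (s : V) : wdist G w s s = 0 := by
  refine le_antisymm ?_ (wdist_nonneg hG hw s s)
  have := wdist_le_walk hw (SimpleGraph.Walk.nil : G.Walk s s)
  simpa using this

theorem wdist_symm (hG : G.Connected) (hw : IsWeighting G w) (s t : V) :
    wdist G w s t = wdist G w t s := by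
  have key : ∀ s t, wdist G w s t ≤ wdist G w t s := by
    intro s t
    obtain ⟨π, _, h⟩ := exists_shortest (w := w) hG t s
    rw [← h, ← walkWeight_reverse]
    exact wdist_le_walk hw _
  exact le_antisymm (key s t) (key t s)

theorem wdist_tri (hG : G.Connected) (hw : IsWeighting G w) (s t u : V) :
    wdist G w s u ≤ wdist G w s t + wdist G w t u := by
  obtain ⟨π, _, h⟩ := exists_shortest (w := w) hG s t
  obtain ⟨ρ, _, h'⟩ := exists_shortest (w := w) hG t u
  rw [← h, ← h', ← walkWeight_append]
  exact wdist_le_walk hw _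

/-- A shortest path through `v` splits. -/
theorem wdist_split (hG : G.Connected) (hw : IsWeighting G w) {s t v : V} (π : G.Walk s t)
    (hπ : walkWeight w π = wdist G w s t) (hv : v ∈ π.support) :
    wdist G w s t = wdist G w s v + wdist G w v t := by
  refine le_antisymm (wdist_tri hG hw s v t) ?_
  rw [← hπ, walkWeight_eq_take_drop π hv]
  exact add_le_add (wdist_le_walk hw _) (wdist_le_walk hw _)

/-- Distinct vertices have distance at least every lower bound of the weights. -/
theorem le_wdist (hG : G.Connected) (hw : IsWeighting G w) {c : ℝ}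
    (hc : ∀ e ∈ G.edgeSet, c ≤ w e) {s t : V} (hst : s ≠ t) : c ≤ wdist G w s t := by
  obtain ⟨π, _, h⟩ := exists_shortest (w := w) hG s t
  rw [← h]
  cases π with
  | nil => exact absurd rfl hst
  | cons h' p =>
    rw [walkWeight_cons]
    have h1 := hc _ ((SimpleGraph.mem_edgeSet G).2 h')
    have h2 := walkWeight_nonneg hw p
    linarith

theorem walkWeight_le {C : ℝ} (hC : ∀ e ∈ G.edgeSet, w e ≤ C) {s t : V} (π : G.Walk s t) :
    walkWeight w π ≤ π.length * C := by
  induction π with
  | nil => simp
  | cons h p ih =>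
    rw [walkWeight_cons, SimpleGraph.Walk.length_cons]
    have h1 := hC _ ((SimpleGraph.mem_edgeSet G).2 h)
    push_cast
    linarith

theorem wdist_le (hG : G.Connected) {C : ℝ} (hC0 : 0 ≤ C)
    (hC : ∀ e ∈ G.edgeSet, w e ≤ C) (s t : V) : wdist G w s t ≤ Fintype.card V * C := by
  obtain ⟨π, hp, h⟩ := exists_shortest (w := w) hG s t
  rw [← h]
  refine (walkWeight_le hC π).trans ?_
  apply mul_le_mul_of_nonneg_right _ hC0
  exact_mod_cast hp.length_lt.le

end basic

end Pool.Agent.Lib_helper88.Stretch
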