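import Pool.Agent.Lib_helper88.Stretch.Main

/-!
# MP_548ab2_lc: asymptotics
-/

namespace Pool.Agent.Lib_helper88.Stretch

open Filter

/-- An eventual inequality. -/
theorem eventually_pow (N : ℕ) (hN : 1 ≤ N) : ∀ᶠ n : ℕ in atTop,
    (2 : ℝ) ^ ((1 / (2 * N) : ℝ) * n) ≤ 2 ^ ((n - 2) / N) / n := by
  have hNpos : (0 : ℝ) < N := by exact_mod_cast (show 0 < N by omega)
  set r : ℝ := (2 : ℝ) ^ (1 / (2 * N) : ℝ) with hr
  have hr1 : 1 < r := Real.one_lt_rpow (by norm_num) (by positivity)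
  set C : ℝ := (2 : ℝ) ^ ((2 + N : ℝ) / N) with hC
  have hCpos : 0 < C := Real.rpow_pos_of_pos (by norm_num) _
  have ht := tendsto_pow_const_div_const_pow_of_one_lt 1 hr1
  have hev : ∀ᶠ n : ℕ in atTop, (n : ℝ) ^ 1 / r ^ n < 1 / C :=
    ht.eventually (gt_mem_nhds (by positivity))
  filter_upwards [hev, eventually_ge_atTop 2] with n hn hn2
  have hnpos : (0 : ℝ) < n := by exact_mod_cast (show 0 < n by omega)
  have hrn : 0 < r ^ n := pow_pos (by linarith) n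
  have h1 : (n : ℝ) * C < r ^ n := by
    rw [pow_one, div_lt_div_iff₀ hrn hCpos] at hn
    linarith
  -- exponent
  have hdiv : ((n : ℝ) - 2 - N) / N ≤ ((n - 2) / N : ℕ) := by
    rw [div_le_iff₀ hNpos]
    have h2 : n - 2 < N * ((n - 2) / N) + N := by
      have := Nat.lt_mul_div_succ (n - 2) (show 0 < N by omega)
      rw [Nat.mul_succ] at this
      exact this
    have h3 : n < N * ((n - 2) / N) + N + 2 := by omega
    have h4 : (n : ℝ) < N * ((n - 2) / N : ℕ) + N + 2 := by exact_mod_cast h3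
    linarith
  have h5 : (2 : ℝ) ^ (((n : ℝ) - 2 - N) / N) ≤ 2 ^ ((n - 2) / N) := by
    rw [← Real.rpow_natCast 2 ((n - 2) / N)]
    exact Real.rpow_le_rpow_of_exponent_le (by norm_num) hdiv
  rw [le_div_iff₀ hnpos]
  refine le_trans ?_ h5
  have h6 : r ^ n = (2 : ℝ) ^ ((1 / (2 * N) : ℝ) * n) := by
    rw [hr, ← Real.rpow_natCast, ← Real.rpow_mul (by norm_num)]
  have h7 : (2 : ℝ) ^ (((n : ℝ) - 2 - N) / N) * C =
      (2 : ℝ) ^ ((1 / (2 * N) : ℝ) * n) * (2 : ℝ) ^ ((1 / (2 * N) : ℝ) * n) := by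
    rw [hC, ← Real.rpow_add (by norm_num), ← Real.rpow_add (by norm_num)]
    congr 1
    field_simp
    ring
  have h8 : (2 : ℝ) ^ ((1 / (2 * N) : ℝ) * n) * n * C ≤
      (2 : ℝ) ^ (((n : ℝ) - 2 - N) / N) * C := by
    rw [h7, mul_assoc]
    apply mul_le_mul_of_nonneg_left _ (by positivity)
    rw [← h6]
    exact h1.le
  exact le_of_mul_le_mul_right h8 hCpos

/-- The exponential lower bound for every stretch. -/
theorem exponential_bound (hG : GrowthGadget) (hR : ReductionGadget) (α : ℝ) :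
    ∃ ε : ℝ, 0 < ε ∧ ∃ n₀ : ℕ, ∀ n : ℕ, n₀ ≤ n →
      ∃ (G : SimpleGraph (Fin n)) (wG : Sym2 (Fin n) → ℝ), G.Connected ∧ IsWeighting G wG ∧
        ∀ wH : Sym2 (Fin n) → ℝ, IsWeighting G wH → StretchPreserving α G wG wH →
          (2 : ℝ) ^ (ε * n) ≤ aspectRatio G wH := by
  obtain ⟨N, hN1, hN⟩ := lower_bound hG hR α
  have hNpos : (0 : ℝ) < N := by exact_mod_cast (show 0 < N by omega)
  obtain ⟨n₁, hn₁⟩ := eventually_atTop.1 (eventually_pow N hN1)
  refine ⟨1 / (2 * N), by positivity, max n₁ (2 + N), fun n hn => ?_⟩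
  obtain ⟨G, w, h1, h2, h3⟩ := hN n (le_trans (le_max_right _ _) hn)
  refine ⟨G, w, h1, h2, fun wH hw hs => ?_⟩
  exact (hn₁ n (le_trans (le_max_left _ _) hn)).trans (h3 wH hw hs)

/-- Polynomials are beaten by exponentials. -/
theorem exists_large (ε c : ℝ) (hε : 0 < ε) (n₀ : ℕ) : ∃ n : ℕ, n₀ ≤ n ∧ 2 ≤ n ∧
    (n : ℝ) ^ c < 2 ^ (ε * n) := by
  set k : ℕ := ⌈c⌉₊ with hk
  set r : ℝ := (2 : ℝ) ^ ε with hr
  have hr1 : 1 < r := Real.one_lt_rpow (by norm_num) hε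
  have ht := tendsto_pow_const_div_const_pow_of_one_lt k hr1
  have hev : ∀ᶠ n : ℕ in atTop, (n : ℝ) ^ k / r ^ n < 1 :=
    ht.eventually (gt_mem_nhds (by norm_num))
  obtain ⟨n, hn, hn0, hn2⟩ :=
    (hev.and ((eventually_ge_atTop n₀).and (eventually_ge_atTop 2))).exists
  refine ⟨n, hn0, hn2, ?_⟩
  have hrn : 0 < r ^ n := pow_pos (by linarith) n
  have h1 : (n : ℝ) ^ k < r ^ n := by
    rw [div_lt_one hrn] at hn
    exact hn
  have h2 : (n : ℝ) ^ c ≤ (n : ℝ) ^ k := by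
    rw [← Real.rpow_natCast (n : ℝ) k]
    apply Real.rpow_le_rpow_of_exponent_le
    · exact_mod_cast (show 1 ≤ n by omega)
    · exact Nat.le_ceil c
  have h3 : r ^ n = (2 : ℝ) ^ (ε * n) := by
    rw [hr, ← Real.rpow_natCast, ← Real.rpow_mul (by norm_num)]
  rw [← h3]
  exact lt_of_le_of_lt h2 h1

end Pool.Agent.Lib_helper88.Stretch
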