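import Pool.Agent.Lib_helper88.Stretch.Short

/-!
# MP_548ab2_lc, module 4: frames (staged graphs), attaching a gadget, admissible metrics
-/

namespace Pool.Agent.Lib_helper88.Stretch

/-- `Lw G b i v k p q` : a walk from `p` to `q` avoiding `v`, all of whose edges have level at
most `i`, at most `k` of them level exactly `i`.  The level of `a a'` is `max (b a) (b a')`. -/
inductive Lw (G : SimpleGraph ℕ) (b : ℕ → ℕ) (i v : ℕ) : ℕ → ℕ → ℕ → Prop
  | refl (k a : ℕ) : a ≠ v → Lw G b i v k a a
  | low {k a a' c : ℕ} : G.Adj a a' → a ≠ v → max (b a) (b a') < i → Lw G b i v k a' c →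
      Lw G b i v k a c
  | top {k a a' c : ℕ} : G.Adj a a' → a ≠ v → max (b a) (b a') = i → Lw G b i v k a' c →
      Lw G b i v (k + 1) a c

theorem Lw.start_ne {G : SimpleGraph ℕ} {b : ℕ → ℕ} {i v k p q : ℕ} (h : Lw G b i v k p q) :
    p ≠ v := by
  cases h <;> assumption

/-- The graph of the edges whose ends have birth at most `i`. -/
def lowG (G : SimpleGraph ℕ) (b : ℕ → ℕ) (i : ℕ) : SimpleGraph ℕ where
  Adj a c := G.Adj a c ∧ b a ≤ i ∧ b c ≤ i
  symm := ⟨fun _ _ h => ⟨h.1.symm, h.2.2, h.2.1⟩⟩
  loopless := ⟨fun _ h => h.1.ne rfl⟩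

/-- A staged graph on the vertices `0, …, n - 1`; `b` is the birth stage. -/
structure Frame (α : ℕ) where
  n : ℕ
  G : SimpleGraph ℕ
  b : ℕ → ℕ
  top : ℕ
  supp : ∀ u v, G.Adj u v → u < n
  btop : ∀ v, v < n → b v ≤ top
  sep : ∀ v p q, G.Adj v p → G.Adj v q → p ≠ q → max (b v) (b p) = max (b v) (b q) →
    ¬ Lw G b (max (b v) (b p)) v (2 * α) p q
  conn : ∀ v, v < n → (lowG G b (b v)).Reachable v 0

/-- The metrics that we use: everything that is derived from a valid reweighting. -/
structure Adm {α : ℕ} (F : Frame α) (d : ℕ → ℕ → ℝ) : Prop where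
  self : ∀ u, d u u = 0
  symm : ∀ u v, d u v = d v u
  tri : ∀ u v w, d u w ≤ d u v + d v w
  pos : ∀ u v, u < F.n → v < F.n → u ≠ v → 0 < d u v
  btw : ∀ v p q, F.G.Adj v p → F.G.Adj v q → p ≠ q →
    max (F.b v) (F.b p) = max (F.b v) (F.b q) → d p q = d p v + d v q
  exit : ∀ m z, m < F.n → z < F.n → F.b z < F.b m →
    ∃ u a, F.G.Adj u a ∧ F.b u = F.b m ∧ F.b a < F.b m ∧ d m z = d m a + d a z

theorem Adm.nonneg {α : ℕ} {F : Frame α} {d : ℕ → ℕ → ℝ} (h : Adm F d) (u v : ℕ) :
    0 ≤ d u v := by
  have h1 := h.tri u v u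
  rw [h.self, h.symm v u] at h1
  linarith

section attach

variable {α m : ℕ} (F : Frame α) (g : Gadget α m) (τ : Fin m → ℕ)

/-- The graph after attaching the gadget `g` to the terminals `τ`. -/
def attG : SimpleGraph ℕ where
  Adj u v := F.G.Adj u v ∨
    (∃ w w' : Fin g.N, u = F.n + w ∧ v = F.n + w' ∧ g.Q.Adj (some w) (some w')) ∨
    (∃ (w : Fin g.N) (j : Fin m), u = F.n + w ∧ v = τ j ∧ τ j < F.n ∧ g.att w = some j) ∨
    (∃ (w : Fin g.N) (j : Fin m), v = F.n + w ∧ u = τ j ∧ τ j < F.n ∧ g.att w = some j)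
  symm := ⟨by
    rintro u v (h | ⟨w, w', h1, h2, h3⟩ | h | h)
    · exact Or.inl h.symm
    · exact Or.inr (Or.inl ⟨w', w, h2, h1, h3.symm⟩)
    · exact Or.inr (Or.inr (Or.inr h))
    · exact Or.inr (Or.inr (Or.inl h))⟩
  loopless := ⟨by
    rintro u (h | ⟨w, w', h1, h2, h3⟩ | ⟨w, j, h1, h2, h3, _⟩ | ⟨w, j, h1, h2, h3, _⟩)
    · exact h.ne rfl
    · have : w = w' := Fin.ext (by omega)
      subst this
      exact h3.ne rfl
    · omega
    · omega⟩

/-- The new births. -/
def attB (u : ℕ) : ℕ := if u < F.n then F.b u else F.top + 1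

/-- The image in the contracted graph. -/
def ix (u : ℕ) : Option (Fin g.N) :=
  if h : F.n ≤ u ∧ u < F.n + g.N then some ⟨u - F.n, by omega⟩ else none

theorem ix_new (w : Fin g.N) : ix F g (F.n + w) = some w := by
  unfold ix
  rw [dif_pos (by omega)]
  congr 1
  apply Fin.ext
  simp

theorem ix_old {u : ℕ} (h : u < F.n) : ix F g u = none := by
  unfold ix
  rw [dif_neg (by omega)]

theorem ix_eq_some {u : ℕ} {w : Fin g.N} (h : ix F g u = some w) : u = F.n + w := by
  unfold ix at h
  split_ifs at h with h1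
  cases h
  simp
  omega

theorem attB_old {u : ℕ} (h : u < F.n) : attB F u = F.b u := if_pos h

theorem attB_new {u : ℕ} (h : F.n ≤ u) : attB F u = F.top + 1 := if_neg (by omega)

theorem attB_le (u : ℕ) : attB F u ≤ F.top + 1 := by
  unfold attB
  split_ifs with h
  · have := F.btop u h; omega
  · exact le_rfl

theorem old_of_attB {u : ℕ} (h : attB F u ≤ F.top) : u < F.n := by
  by_contra hcon
  rw [attB_new F (by omega)] at h
  omega

theorem attG_old {u v : ℕ} (hu : u < F.n) (hv : v < F.n) (h : (attG F g τ).Adj u v) :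
    F.G.Adj u v := by
  rcases h with h | ⟨w, w', h1, h2, h3⟩ | ⟨w, j, h1, h2, h3, _⟩ | ⟨w, j, h1, h2, h3, _⟩
  · exact h
  all_goals omega

theorem attG_Q {u v : ℕ} (hlev : F.n ≤ u ∨ F.n ≤ v) (h : (attG F g τ).Adj u v) :
    g.Q.Adj (ix F g u) (ix F g v) := by
  rcases h with h | ⟨w, w', rfl, rfl, h3⟩ | ⟨w, j, rfl, rfl, h3, h4⟩ | ⟨w, j, rfl, rfl, h3, h4⟩
  · have h1 := F.supp _ _ h
    have h2 := F.supp _ _ h.symm
    omega
  · rw [ix_new, ix_new]; exact h3
  · rw [ix_new, ix_old F g h3]
    exact ((g.att_iff w).2 (by rw [h4]; simp)).symm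
  · rw [ix_new, ix_old F g h3]
    exact ((g.att_iff w).2 (by rw [h4]; simp))

/-- Both ends of an edge are vertices. -/
theorem attG_supp {u v : ℕ} (h : (attG F g τ).Adj u v) : u < F.n + g.N := by
  rcases h with h | ⟨w, w', rfl, rfl, h3⟩ | ⟨w, j, rfl, rfl, h3, _⟩ | ⟨w, j, rfl, rfl, h3, _⟩
  · have := F.supp _ _ h; omega
  · omega
  · omega
  · omega

theorem attG_port {w : Fin g.N} {v : ℕ} (hv : v < F.n) (h : (attG F g τ).Adj (F.n + w) v) :
    ∃ j, g.att w = some j ∧ τ j = v := by
  rcases h with h | ⟨w1, w', h1, rfl, h3⟩ | ⟨w1, j, h1, rfl, h3, h4⟩ | ⟨w1, j, rfl, h1, h3, h4⟩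
  · have := F.supp _ _ h; omega
  · omega
  · have : w = w1 := Fin.ext (by omega)
    subst this
    exact ⟨j, h4, rfl⟩
  · omega

theorem lw_new {w0 : Fin g.N} {k p q : ℕ}
    (h : Lw (attG F g τ) (attB F) (F.top + 1) (F.n + w0) k p q) :
    Dk (del g.Q (some w0)) k (ix F g p) (ix F g q) := by
  induction h with
  | refl k a _ => exact Dk.refl k _
  | @low k a a' c hadj hne hlt _ ih =>
    have ha : a < F.n := old_of_attB F (by omega)
    have ha' : a' < F.n := old_of_attB F (by omega)
    rw [ix_old F g ha]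
    rw [ix_old F g ha'] at ih
    exact ih
  | @top k a a' c hadj hne heq htail ih =>
    have hor : F.n ≤ a ∨ F.n ≤ a' := by
      by_contra hcon
      push Not at hcon
      rw [attB_old F hcon.1, attB_old F hcon.2] at heq
      have h1 := F.btop a hcon.1
      have h2 := F.btop a' hcon.2
      omega
    refine Dk.step ⟨attG_Q F g τ hor hadj, ?_, ?_⟩ ih
    · intro hcon; exact hne (ix_eq_some F g hcon)
    · intro hcon; exact htail.start_ne (ix_eq_some F g hcon)

theorem lw_old {v k p q : ℕ} (h : Lw (attG F g τ) (attB F) (F.top + 1) v k p q)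
    (hp : F.n ≤ p) :
    Dk (del g.Q none) k (ix F g p) (ix F g q) ∨
      ∃ (w : Fin g.N) (j : Fin m), g.att w = some j ∧ τ j ≠ v ∧
        Dk (del g.Q none) k (ix F g p) (some w) := by
  induction h with
  | refl k a _ => exact Or.inl (Dk.refl k _)
  | @low k a a' c hadj hne hlt _ ih =>
    rw [attB_new F hp] at hlt
    omega
  | @top k a a' c hadj hne heq htail ih =>
    have haN : a < F.n + g.N := attG_supp F g τ hadj
    have hixa : ix F g a = some ⟨a - F.n, by omega⟩ := by
      unfold ix; rw [dif_pos ⟨hp, haN⟩]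
    by_cases ha' : F.n ≤ a'
    · have haN' : a' < F.n + g.N := attG_supp F g τ hadj.symm
      have hixa' : ix F g a' = some ⟨a' - F.n, by omega⟩ := by
        unfold ix; rw [dif_pos ⟨ha', haN'⟩]
      have hstep : (del g.Q none).Adj (ix F g a) (ix F g a') :=
        ⟨attG_Q F g τ (Or.inl hp) hadj, by rw [hixa]; simp, by rw [hixa']; simp⟩
      rcases ih ha' with h1 | ⟨w, j, h1, h2, h3⟩
      · exact Or.inl (Dk.step hstep h1)
      · exact Or.inr ⟨w, j, h1, h2, Dk.step hstep h3⟩
    · push Not at ha'
      have haeq : a = F.n + ((⟨a - F.n, by omega⟩ : Fin g.N) : ℕ) := by simp; omega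
      rw [haeq] at hadj
      obtain ⟨j, hj1, hj2⟩ := attG_port F g τ ha' hadj
      refine Or.inr ⟨⟨a - F.n, by omega⟩, j, hj1, ?_, ?_⟩
      · rw [hj2]; exact htail.start_ne
      · rw [hixa]; exact Dk.refl _ _

theorem lw_low {i v k p q : ℕ} (hi : i ≤ F.top) (h : Lw (attG F g τ) (attB F) i v k p q) :
    Lw F.G F.b i v k p q := by
  induction h with
  | refl k a ha => exact Lw.refl k a ha
  | @low k a a' c hadj hne hlt _ ih =>
    have ha : a < F.n := old_of_attB F (by omega)
    have ha' : a' < F.n := old_of_attB F (by omega)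
    rw [attB_old F ha, attB_old F ha'] at hlt
    exact Lw.low (attG_old F g τ ha ha' hadj) hne hlt ih
  | @top k a a' c hadj hne heq _ ih =>
    have ha : a < F.n := old_of_attB F (by omega)
    have ha' : a' < F.n := old_of_attB F (by omega)
    rw [attB_old F ha, attB_old F ha'] at heq
    exact Lw.top (attG_old F g τ ha ha' hadj) hne heq ih

theorem lowG_mono {G G' : SimpleGraph ℕ} {b b' : ℕ → ℕ} {i i' : ℕ}
    (h : ∀ a c, G.Adj a c → b a ≤ i → b c ≤ i → G'.Adj a c ∧ b' a ≤ i' ∧ b' c ≤ i') :
    lowG G b i ≤ lowG G' b' i' := by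
  intro a c hac
  exact h a c hac.1 hac.2.1 hac.2.2

/-- The frame after attaching the gadget. -/
def attach (hτ : ∀ j, τ j < F.n) : Frame α where
  n := F.n + g.N
  G := attG F g τ
  b := attB F
  top := F.top + 1
  supp := fun _ _ h => attG_supp F g τ h
  btop := fun v _ => attB_le F v
  sep := by
    intro v p q hvp hvq hpq hlev hLw
    by_cases hi : max (attB F v) (attB F p) ≤ F.top
    · have hv : v < F.n := old_of_attB F (by omega)
      have hp : p < F.n := old_of_attB F (by omega)
      have hq : q < F.n := old_of_attB F (by omega)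
      rw [attB_old F hv, attB_old F hp, attB_old F hq] at hlev
      rw [attB_old F hv, attB_old F hp] at hLw hi
      exact F.sep v p q (attG_old F g τ hv hp hvp) (attG_old F g τ hv hq hvq) hpq hlev
        (lw_low F g τ hi hLw)
    · have h1 := attB_le F v
      have h2 := attB_le F p
      have hi' : max (attB F v) (attB F p) = F.top + 1 := by omega
      rw [hi'] at hLw
      by_cases hv : F.n ≤ v
      · have hvN : v < F.n + g.N := attG_supp F g τ hvp
        set w0 : Fin g.N := ⟨v - F.n, by omega⟩ with hw0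
        have hveq : v = F.n + (w0 : ℕ) := by simp [hw0]; omega
        rw [hveq] at hLw hvp hvq
        have hD := lw_new F g τ hLw
        have hQp := attG_Q F g τ (Or.inl (by omega)) hvp
        have hQq := attG_Q F g τ (Or.inl (by omega)) hvq
        rw [ix_new] at hQp hQq
        refine g.noShort (some w0) _ _ hQp hQq ?_ hD
        intro heq
        -- ix p = ix q
        rcases hc : ix F g p with _ | wp
        · have hc' : ix F g q = none := by rw [← heq, hc]
          have hpN : p < F.n + g.N := attG_supp F g τ hvp.symm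
          have hqN : q < F.n + g.N := attG_supp F g τ hvq.symm
          have hpo : p < F.n := by
            by_contra hcon
            unfold ix at hc; rw [dif_pos (by omega)] at hc
            exact absurd hc (by simp)
          have hqo : q < F.n := by
            by_contra hcon
            unfold ix at hc'; rw [dif_pos (by omega)] at hc'
            exact absurd hc' (by simp)
          obtain ⟨j, hj1, hj2⟩ := attG_port F g τ hpo hvp
          obtain ⟨j', hj1', hj2'⟩ := attG_port F g τ hqo hvq
          rw [hj1] at hj1'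
          cases hj1'
          exact hpq (hj2.symm.trans hj2')
        · have hc' : ix F g q = some wp := by rw [← heq, hc]
          exact hpq ((ix_eq_some F g hc).trans (ix_eq_some F g hc').symm)
      · push Not at hv
        have hpn : F.n ≤ p := by
          by_contra hcon
          push Not at hcon
          rw [attB_old F hv, attB_old F hcon] at hi'
          have := F.btop v hv; have := F.btop p hcon
          omega
        have hqn : F.n ≤ q := by
          by_contra hcon
          push Not at hcon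
          rw [hi', attB_old F hv, attB_old F hcon] at hlev
          have := F.btop v hv; have := F.btop q hcon
          omega
        have hpN : p < F.n + g.N := attG_supp F g τ hvp.symm
        have hqN : q < F.n + g.N := attG_supp F g τ hvq.symm
        set wp : Fin g.N := ⟨p - F.n, by omega⟩ with hwp
        set wq : Fin g.N := ⟨q - F.n, by omega⟩ with hwq
        have hpeq : p = F.n + (wp : ℕ) := by simp [hwp]; omega
        have hqeq : q = F.n + (wq : ℕ) := by simp [hwq]; omega
        have hpqne : wp ≠ wq := by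
          intro hcon
          exact hpq (by rw [hpeq, hqeq, hcon])
        rw [hpeq, hqeq] at hLw
        rw [hpeq] at hvp
        rw [hqeq] at hvq
        obtain ⟨j, hj1, hj2⟩ := attG_port F g τ hv hvp.symm
        obtain ⟨j', hj1', hj2'⟩ := attG_port F g τ hv hvq.symm
        have hQp : g.Q.Adj none (some wp) := (g.att_iff wp).2 (by rw [hj1]; simp)
        have hQq : g.Q.Adj none (some wq) := (g.att_iff wq).2 (by rw [hj1']; simp)
        rcases lw_old F g τ hLw (by omega) with h3 | ⟨w, j'', h3, h4, h5⟩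
        · rw [ix_new, ix_new] at h3
          exact g.noShort none _ _ hQp hQq (by simpa using hpqne) h3
        · rw [ix_new] at h5
          refine g.noShort none _ _ hQp ((g.att_iff w).2 (by rw [h3]; simp)) ?_ h5
          intro hcon
          have : wp = w := by simpa using hcon
          subst this
          rw [hj1] at h3
          cases h3
          exact h4 hj2
  conn := by
    have hmono : ∀ i i', i ≤ i' → lowG F.G F.b i ≤ lowG (attG F g τ) (attB F) i' := by
      intro i i' hii
      apply lowG_mono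
      intro a c hac ha hc
      have h1 := F.supp _ _ hac
      have h2 := F.supp _ _ hac.symm
      rw [attB_old F h1, attB_old F h2]
      exact ⟨Or.inl hac, by omega, by omega⟩
    have hold : ∀ v, v < F.n → ∀ i', F.b v ≤ i' →
        (lowG (attG F g τ) (attB F) i').Reachable v 0 := by
      intro v hv i' hi'
      exact (F.conn v hv).mono (hmono _ _ hi')
    have hnew : ∀ (x y : Option (Fin g.N)), g.Q.Walk x y → y = none → ∀ w : Fin g.N, x = some w →
        (lowG (attG F g τ) (attB F) (F.top + 1)).Reachable (F.n + w) 0 := by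
      intro x y p
      induction p with
      | nil => intro h1 w h2; rw [h1] at h2; exact absurd h2 (by simp)
      | @cons x z y hxz p ih =>
        intro h1 w h2
        subst h2
        rcases z with _ | w'
        · obtain ⟨j, hj⟩ := Option.ne_none_iff_exists'.1 ((g.att_iff w).1 hxz.symm)
          have hadj : (lowG (attG F g τ) (attB F) (F.top + 1)).Adj (F.n + w) (τ j) :=
            ⟨Or.inr (Or.inr (Or.inl ⟨w, j, rfl, rfl, hτ j, hj⟩)), attB_le F _, attB_le F _⟩
          exact hadj.reachable.trans (hold _ (hτ j) _ (by have := F.btop _ (hτ j); omega))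
        · have hadj : (lowG (attG F g τ) (attB F) (F.top + 1)).Adj (F.n + w) (F.n + w') :=
            ⟨Or.inr (Or.inl ⟨w, w', rfl, rfl, hxz⟩), attB_le F _, attB_le F _⟩
          exact hadj.reachable.trans (ih h1 w' rfl)
    intro v hv
    by_cases hvn : v < F.n
    · rw [attB_old F hvn]
      exact hold v hvn _ le_rfl
    · push Not at hvn
      rw [attB_new F hvn]
      obtain ⟨p⟩ := g.conn ⟨v - F.n, by omega⟩
      have := hnew _ _ p rfl ⟨v - F.n, by omega⟩ rfl
      have heq : F.n + (v - F.n) = v := by omega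
      simpa [heq] using this

end attach

/-- `F'` extends `F`. -/
def Ext {α : ℕ} (F F' : Frame α) : Prop := F.n ≤ F'.n ∧ ∀ d, Adm F' d → Adm F d

theorem Ext.refl {α : ℕ} (F : Frame α) : Ext F F := ⟨le_rfl, fun _ h => h⟩

theorem Ext.trans {α : ℕ} {F F' F'' : Frame α} (h : Ext F F') (h' : Ext F' F'') : Ext F F'' :=
  ⟨h.1.trans h'.1, fun d hd => h.2 d (h'.2 d hd)⟩

theorem ext_attach {α m : ℕ} (F : Frame α) (g : Gadget α m) (τ : Fin m → ℕ)
    (hτ : ∀ j, τ j < F.n) : Ext F (attach F g τ hτ) := by
  refine ⟨Nat.le_add_right _ _, fun d hd => ?_⟩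
  refine ⟨hd.self, hd.symm, hd.tri, ?_, ?_, ?_⟩
  · intro u v hu hv huv
    exact hd.pos u v (lt_of_lt_of_le hu (Nat.le_add_right _ _))
      (lt_of_lt_of_le hv (Nat.le_add_right _ _)) huv
  · intro v p q hvp hvq hpq hlev
    have h1 := F.supp _ _ hvp
    have h2 := F.supp _ _ hvp.symm
    have h3 := F.supp _ _ hvq.symm
    refine hd.btw v p q (Or.inl hvp) (Or.inl hvq) hpq ?_
    change max (attB F v) (attB F p) = max (attB F v) (attB F q)
    rw [attB_old F h1, attB_old F h2, attB_old F h3]
    exact hlev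
  · intro m z hm hz hb
    obtain ⟨u, a, h1, h2, h3, h4⟩ := hd.exit m z (lt_of_lt_of_le hm (Nat.le_add_right _ _))
      (lt_of_lt_of_le hz (Nat.le_add_right _ _)) (by
        change attB F z < attB F m
        rw [attB_old F hm, attB_old F hz]; exact hb)
    change attB F u = attB F m at h2
    change attB F a < attB F m at h3
    change (attG F g τ).Adj u a at h1
    rw [attB_old F hm] at h2 h3
    have hbm := F.btop m hm
    have hu : u < F.n := old_of_attB F (by omega)
    have ha : a < F.n := old_of_attB F (by omega)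
    rw [attB_old F hu] at h2
    rw [attB_old F ha] at h3
    exact ⟨u, a, attG_old F g τ hu ha h1, h2, h3, h4⟩

section consequences

variable {α m : ℕ} {F : Frame α} {g : Gadget α m} {τ : Fin m → ℕ} {hτ : ∀ j, τ j < F.n}
  {d : ℕ → ℕ → ℝ}

/-- Betweenness at a new vertex. -/
theorem Adm.btw_new (hd : Adm (attach F g τ hτ) d) {w w₁ w₂ : Fin g.N}
    (h1 : g.Q.Adj (some w) (some w₁)) (h2 : g.Q.Adj (some w) (some w₂)) (h : w₁ ≠ w₂) :
    d (F.n + w₁) (F.n + w₂) = d (F.n + w₁) (F.n + w) + d (F.n + w) (F.n + w₂) := by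
  refine hd.btw (F.n + w) _ _ (Or.inr (Or.inl ⟨w, w₁, rfl, rfl, h1⟩))
    (Or.inr (Or.inl ⟨w, w₂, rfl, rfl, h2⟩)) ?_ ?_
  · intro hcon
    exact h (Fin.ext (by omega))
  · change max (attB F _) (attB F _) = max (attB F _) (attB F _)
    rw [attB_new F (by omega), attB_new F (by omega), attB_new F (by omega)]

/-- Betweenness at a terminal. -/
theorem Adm.btw_term (hd : Adm (attach F g τ hτ) d) {j : Fin m} {w₁ w₂ : Fin g.N}
    (h1 : g.att w₁ = some j) (h2 : g.att w₂ = some j) (h : w₁ ≠ w₂) :
    d (F.n + w₁) (F.n + w₂) = d (F.n + w₁) (τ j) + d (τ j) (F.n + w₂) := by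
  refine hd.btw (τ j) _ _ (Or.inr (Or.inr (Or.inr ⟨w₁, j, rfl, rfl, hτ j, h1⟩)))
    (Or.inr (Or.inr (Or.inr ⟨w₂, j, rfl, rfl, hτ j, h2⟩))) ?_ ?_
  · intro hcon
    exact h (Fin.ext (by omega))
  · change max (attB F _) (attB F _) = max (attB F _) (attB F _)
    rw [attB_new F (u := F.n + w₁) (by omega), attB_new F (u := F.n + w₂) (by omega)]

/-- Exits go through the terminals. -/
theorem Adm.exit_new (hd : Adm (attach F g τ hτ) d) (w : Fin g.N) {z : ℕ} (hz : z < F.n) :
    ∃ j : Fin m, d (F.n + w) z = d (F.n + w) (τ j) + d (τ j) z := by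
  obtain ⟨u, a, h1, h2, h3, h4⟩ := hd.exit (F.n + w) z
    (by change F.n + w < F.n + g.N; omega)
    (lt_of_lt_of_le hz (Nat.le_add_right _ _)) (by
      change attB F z < attB F (F.n + w)
      rw [attB_old F hz, attB_new F (by omega)]
      have := F.btop z hz; omega)
  change attB F u = attB F (F.n + w) at h2
  change attB F a < attB F (F.n + w) at h3
  change (attG F g τ).Adj u a at h1
  rw [attB_new F (u := F.n + w) (by omega)] at h2 h3
  have ha : a < F.n := old_of_attB F (by omega)
  have hu : F.n ≤ u := by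
    by_contra hcon
    push Not at hcon
    rw [attB_old F hcon] at h2
    have := F.btop u hcon; omega
  have huN : u < F.n + g.N := attG_supp F g τ h1
  have hueq : u = F.n + ((⟨u - F.n, by omega⟩ : Fin g.N) : ℕ) := by simp; omega
  rw [hueq] at h1
  obtain ⟨j, hj1, hj2⟩ := attG_port F g τ ha h1
  exact ⟨j, by rw [hj2]; exact h4⟩

end consequences

end Pool.Agent.Lib_helper88.Stretch
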