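import Pool.Agent.Lib_helper88.Stretch.Layer

/-!
# MP_548ab2_lc, module 2: the gadget of one growth step

Two complete `r`-ary trees of height `h` (side `true` hangs below the terminal `0`, side `false`
below the terminal `1`), whose leaves are joined by a sparse bipartite graph without short cycles.
-/

namespace Pool.Agent.Lib_helper88.Stretch

open Finset

/-- A graph oriented by a parent relation (unique parents, ranks decrease) has no short cycles. -/
theorem noShort_of_parent {V : Type*} {G : SimpleGraph V} (P : V → V → Prop) (rk : V → ℕ)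
    (hadj : ∀ a b, G.Adj a b → P a b ∨ P b a)
    (huniq : ∀ x y y', P x y → P x y' → y = y')
    (hrk : ∀ x y, P x y → rk y < rk x) (k : ℕ) : NoShort k G := by
  -- descendants have larger rank
  have hdesc : ∀ x p, Relation.ReflTransGen P x p → rk p ≤ rk x := by
    intro x p hxp
    induction hxp with
    | refl => exact le_rfl
    | tail _ h ih => exact (hrk _ _ h).le.trans ih
  -- the descendants of a child `p` of `v` are closed under adjacency in `del G v`
  have hclosed : ∀ v p, P p v → ∀ k x y, Dk (del G v) k x y →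
      Relation.ReflTransGen P x p → Relation.ReflTransGen P y p := by
    intro v p hpv k x y hxy
    induction hxy with
    | refl => exact fun h => h
    | @step k a b c hab _ ih =>
      intro ha
      apply ih
      obtain ⟨hab, hav, hbv⟩ := hab
      rcases hadj a b hab with h1 | h1
      · -- b is the parent of a
        rcases Relation.ReflTransGen.cases_head ha with rfl | ⟨c, hac, hcp⟩
        · exact absurd (huniq _ _ _ h1 hpv) hbv
        · rwa [huniq _ _ _ h1 hac]
      · exact Relation.ReflTransGen.head h1 ha
  have key : ∀ v p q, P p v → G.Adj v q → p ≠ q → ¬ Dk (del G v) k p q := by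
    intro v p q hpv hvq hpq hD
    have hq := hclosed v p hpv k p q hD Relation.ReflTransGen.refl
    rcases hadj v q hvq with h1 | h1
    · -- q is the parent of v
      have h2 := hdesc q p hq
      have h3 := hrk _ _ h1
      have h4 := hrk _ _ hpv
      omega
    · -- q is a child of v
      rcases Relation.ReflTransGen.cases_head hq with rfl | ⟨c, hqc, hcp⟩
      · exact hpq rfl
      · have : c = v := huniq _ _ _ hqc h1
        subst this
        have h2 := hdesc c p hcp
        have h4 := hrk _ _ hpv
        omega
  intro v p q hvp hvq hpq hD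
  rcases hadj v p hvp with h1 | h1
  · rcases hadj v q hvq with h2 | h2
    · exact hpq (huniq _ _ _ h1 h2)
    · exact key v q p h2 hvp (Ne.symm hpq) hD.symm
  · exact key v p q h1 hvq hpq hD

/-- Transport of `NoShort` along an injection that preserves adjacency. -/
theorem NoShort.comap {V W : Type*} {G : SimpleGraph V} {G' : SimpleGraph W} (f : V → W)
    (hf : Function.Injective f) (hadj : ∀ a b, G.Adj a b → G'.Adj (f a) (f b)) {k : ℕ}
    (h : NoShort k G') : NoShort k G := by
  intro v p q hvp hvq hpq hD
  refine h (f v) (f p) (f q) (hadj _ _ hvp) (hadj _ _ hvq) (fun he => hpq (hf he)) ?_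
  refine hD.map f ?_
  rintro a b ⟨hab, ha, hb⟩
  exact ⟨hadj _ _ hab, fun he => ha (hf he), fun he => hb (hf he)⟩

/-- A gadget on an arbitrary finite type of new vertices can be transported to `Fin N`. -/
theorem exists_gadget {α m : ℕ} {W : Type} [Fintype W] (Q : SimpleGraph (Option W))
    (att : W → Option (Fin m)) (h1 : ∀ w, Q.Adj none (some w) ↔ att w ≠ none)
    (h2 : NoShort (2 * α) Q) (h3 : ∀ w, Q.Reachable (some w) none) :
    ∃ (g : Gadget α m) (e : Fin g.N ≃ W),
      (∀ a b, g.Q.Adj a b ↔ Q.Adj (a.map e) (b.map e)) ∧ ∀ w, g.att w = att (e w) := by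
  classical
  set e : Fin (Fintype.card W) ≃ W := (Fintype.equivFin W).symm with he
  have hinj : Function.Injective (Option.map e) := Option.map_injective e.injective
  set Q' : SimpleGraph (Option (Fin (Fintype.card W))) := Q.comap (Option.map e) with hQ'
  have hadj : ∀ a b, Q'.Adj a b ↔ Q.Adj (a.map e) (b.map e) := fun a b => Iff.rfl
  refine ⟨⟨Fintype.card W, Q', fun w => att (e w), ?_, ?_, ?_⟩, e, hadj, fun w => rfl⟩
  · intro w
    rw [hadj]
    exact h1 (e w)
  · exact h2.comap (Option.map e) hinj (fun a b h => h)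
  · intro w
    -- map back
    have h4 := h3 (e w)
    let φ : Q →g Q' :=
      { toFun := Option.map e.symm
        map_rel' := by
          intro a b hab
          rw [hadj]
          have hr : ∀ x : Option W, Option.map e (Option.map e.symm x) = x := by
            intro x; cases x <;> simp
          rw [hr, hr]; exact hab }
    have h5 := h4.map φ
    simpa [φ] using h5

namespace Growth

/-- The nodes of the complete `r`-ary tree of height `h` without its root. -/
def nodes (h r : ℕ) : Finset (ℕ × ℕ) :=
  ((range (h + 1)) ×ˢ (range (r ^ h))).filter (fun p => 1 ≤ p.1 ∧ p.2 < r ^ p.1)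

theorem mem_nodes {h r : ℕ} (hr : 1 ≤ r) {p : ℕ × ℕ} :
    p ∈ nodes h r ↔ 1 ≤ p.1 ∧ p.1 ≤ h ∧ p.2 < r ^ p.1 := by
  simp only [nodes, mem_filter, mem_product, mem_range]
  constructor
  · rintro ⟨⟨h1, h2⟩, h3, h4⟩
    exact ⟨h3, by omega, h4⟩
  · rintro ⟨h1, h2, h3⟩
    refine ⟨⟨by omega, lt_of_lt_of_le h3 (Nat.pow_le_pow_right hr h2)⟩, h1, h3⟩

/-- New vertices: a side and a node. -/
abbrev W (h r : ℕ) : Type := Bool × {p : ℕ × ℕ // p ∈ nodes h r}

/-- `P h r x y`: the vertex `y` is the parent of `x`. -/
def P (h r : ℕ) : Option (W h r) → Option (W h r) → Prop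
  | none, _ => False
  | some w, none => w.2.1.1 = 1
  | some w, some w' => w.1 = w'.1 ∧ w.2.1.1 = w'.2.1.1 + 1 ∧ w.2.1.2 / r = w'.2.1.2

/-- The level. -/
def lev (h r : ℕ) : Option (W h r) → ℕ
  | none => 0
  | some w => w.2.1.1

theorem P_lev {h r : ℕ} {x y : Option (W h r)} (hxy : P h r x y) : lev h r x = lev h r y + 1 := by
  cases x with
  | none => exact absurd hxy (by simp [P])
  | some w =>
    cases y with
    | none => simpa [P, lev] using hxy
    | some w' => exact hxy.2.1

theorem P_uniq {h r : ℕ} {x y y' : Option (W h r)} (h1 : P h r x y) (h2 : P h r x y')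
    (hr : 1 ≤ r) : y = y' := by
  cases x with
  | none => exact absurd h1 (by simp [P])
  | some w =>
    cases y with
    | none =>
      cases y' with
      | none => rfl
      | some w' =>
        have e1 : w.2.1.1 = 1 := h1
        have e2 := h2.2.1
        have e3 := ((mem_nodes hr).1 w'.2.2).1
        omega
    | some w' =>
      cases y' with
      | none =>
        have e1 : w.2.1.1 = 1 := h2
        have e2 := h1.2.1
        have e3 := ((mem_nodes hr).1 w'.2.2).1
        omega
      | some w'' =>
        obtain ⟨a1, a2, a3⟩ := h1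
        obtain ⟨b1, b2, b3⟩ := h2
        congr 1
        refine Prod.ext (a1.symm.trans b1) (Subtype.ext (Prod.ext ?_ ?_))
        · show w'.2.1.1 = w''.2.1.1
          omega
        · show w'.2.1.2 = w''.2.1.2
          omega

/-- The tree (both sides hang below `none`). -/
def tree (h r : ℕ) : SimpleGraph (Option (W h r)) where
  Adj a b := P h r a b ∨ P h r b a
  symm := ⟨fun a b hab => hab.symm⟩
  loopless := ⟨fun a ha => by
    have : lev h r a = lev h r a + 1 := by rcases ha with h1 | h1 <;> exact P_lev h1
    omega⟩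

theorem tree_noShort {h r : ℕ} (hr : 1 ≤ r) (k : ℕ) : NoShort k (tree h r) :=
  noShort_of_parent (P h r) (lev h r) (fun _ _ hab => hab)
    (fun _ _ _ h1 h2 => P_uniq h1 h2 hr) (fun x y hxy => by rw [P_lev hxy]; omega) k

open Classical in
/-- Degrees in the tree. -/
theorem tree_deg {h r : ℕ} (hr : 1 ≤ r) (v : Option (W h r)) :
    (Finset.univ.filter (fun u => (tree h r).Adj v u)).card ≤ 2 * r + 1 := by
  -- code of a neighbour
  let φ : Option (W h r) → ℕ := fun u =>
    if P h r v u then 2 * r else
      match u with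
      | none => 0
      | some w => (if w.1 then r else 0) + w.2.1.2 % r
  have hmod : ∀ n, n % r < r := fun n => Nat.mod_lt _ hr
  have hle : ((Finset.univ.filter (fun u => (tree h r).Adj v u))).card ≤ (range (2 * r + 1)).card := by
    apply Finset.card_le_card_of_injOn φ
    · intro u hu
      simp only [coe_range, Set.mem_Iio, φ]
      split_ifs with h1
      · omega
      · cases u with
        | none => simp
        | some w =>
          have := hmod w.2.1.2
          simp only
          split_ifs <;> omega
    · intro u hu u' hu' huu'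
      have hu1 : (tree h r).Adj v u := (mem_filter.1 (mem_coe.1 hu)).2
      have hu2 : (tree h r).Adj v u' := (mem_filter.1 (mem_coe.1 hu')).2
      simp only [φ] at huu'
      have hlt : ∀ x : Option (W h r), ¬ P h r v x → (match x with
          | none => 0
          | some w => (if w.1 then r else 0) + w.2.1.2 % r : ℕ) < 2 * r := by
        intro x hx
        cases x with
        | none => simp only; omega
        | some w =>
          have := hmod w.2.1.2
          simp only
          split_ifs <;> omega
      by_cases h1 : P h r v u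
      · by_cases h2 : P h r v u'
        · exact P_uniq h1 h2 hr
        · rw [if_pos h1, if_neg h2] at huu'
          have := hlt u' h2
          omega
      · by_cases h2 : P h r v u'
        · rw [if_neg h1, if_pos h2] at huu'
          have := hlt u h1
          omega
        · rw [if_neg h1, if_neg h2] at huu'
          have c1 : P h r u v := hu1.resolve_left h1
          have c2 : P h r u' v := hu2.resolve_left h2
          cases u with
          | none => exact absurd c1 (by simp [P])
          | some w =>
            cases u' with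
            | none => exact absurd c2 (by simp [P])
            | some w' =>
              simp only at huu'
              have m1 := hmod w.2.1.2
              have m2 := hmod w'.2.1.2
              have hside : w.1 = w'.1 := by
                by_contra hne
                rcases hw : w.1 with _ | _ <;> rcases hw' : w'.1 with _ | _ <;>
                  simp [hw, hw'] at huu' hne <;> omega
              have hm : w.2.1.2 % r = w'.2.1.2 % r := by
                rw [hside] at huu'
                omega
              have hl : w.2.1.1 = w'.2.1.1 := by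
                have e1 := P_lev c1
                have e2 := P_lev c2
                simp only [lev] at e1 e2
                omega
              have hd : w.2.1.2 / r = w'.2.1.2 / r := by
                cases v with
                | none =>
                  have f1 : w.2.1.1 = 1 := c1
                  have f2 : w'.2.1.1 = 1 := c2
                  have g1 := ((mem_nodes hr).1 w.2.2).2.2
                  have g2 := ((mem_nodes hr).1 w'.2.2).2.2
                  rw [f1, pow_one] at g1
                  rw [f2, pow_one] at g2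
                  rw [Nat.div_eq_of_lt g1, Nat.div_eq_of_lt g2]
                | some z =>
                  rw [c1.2.2, c2.2.2]
              congr 1
              refine Prod.ext hside (Subtype.ext (Prod.ext hl ?_))
              rw [← Nat.div_add_mod w.2.1.2 r, ← Nat.div_add_mod w'.2.1.2 r, hd, hm]
  simpa using hle


/-- Every vertex is connected to the root in the tree. -/
theorem tree_conn {h r : ℕ} (hr : 1 ≤ r) : ∀ w : W h r, (tree h r).Reachable (some w) none := by
  have main : ∀ (j : ℕ) (w : W h r), w.2.1.1 = j → (tree h r).Reachable (some w) none := by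
    intro j
    induction j with
    | zero =>
      intro w hw
      have := ((mem_nodes hr).1 w.2.2).1
      omega
    | succ j ih =>
      intro w hw
      rcases Nat.eq_zero_or_pos j with rfl | hj
      · have : (tree h r).Adj (some w) none := Or.inl (by simpa [P] using hw)
        exact this.reachable
      · obtain ⟨b, ⟨⟨i, a⟩, hmem⟩⟩ := w
        simp only at hw
        subst hw
        have hm := (mem_nodes hr).1 hmem
        simp only at hm
        have hmem' : ((j, a / r) : ℕ × ℕ) ∈ nodes h r := by
          rw [mem_nodes hr]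
          refine ⟨hj, by simp only; omega, ?_⟩
          simp only
          rw [Nat.div_lt_iff_lt_mul hr]
          calc a < r ^ (j + 1) := hm.2.2
            _ = r ^ j * r := pow_succ _ _
        have h1 : (tree h r).Adj (some (b, ⟨(j + 1, a), hmem⟩)) (some (b, ⟨(j, a / r), hmem'⟩)) :=
          Or.inl ⟨rfl, rfl, rfl⟩
        exact h1.reachable.trans (ih _ rfl)
  exact fun w => main _ w rfl

/-- The colour of a node (good, i.e. equal to the side, outside the tree). -/
def col {h r : ℕ} (c : W h r → Bool) (b : Bool) (j a : ℕ) : Bool :=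
  if hm : (j, a) ∈ nodes h r then c (b, ⟨(j, a), hm⟩) else b

/-- The bad nodes of a level. -/
def bad {h r : ℕ} (c : W h r → Bool) (b : Bool) (j : ℕ) : Finset ℕ :=
  (range (r ^ j)).filter (fun a => col c b j a ≠ b)

theorem bad_mem {h r : ℕ} {c : W h r → Bool} {b : Bool} {j a : ℕ} (ha : a ∈ bad c b j) :
    ∃ hm : (j, a) ∈ nodes h r, c (b, ⟨(j, a), hm⟩) ≠ b := by
  have h2 := (mem_filter.1 ha).2
  unfold col at h2
  split_ifs at h2 with hm
  · exact ⟨hm, h2⟩
  · exact absurd rfl h2

/-- The number of bad nodes on level `j`. -/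
theorem bad_card {h r : ℕ} (hr : 1 ≤ r) (c : W h r → Bool) (b : Bool)
    (hc : ∀ w w₁ w₂ : W h r, (tree h r).Adj (some w) (some w₁) →
      (tree h r).Adj (some w) (some w₂) → c w₁ ≠ c w → c w₂ ≠ c w → w₁ = w₂)
    (h0 : ∀ w₁ w₂ : W h r, w₁.1 = b → w₂.1 = b → w₁.2.1.1 = 1 → w₂.2.1.1 = 1 →
      c w₁ ≠ b → c w₂ ≠ b → w₁ = w₂) :
    ∀ j, 1 ≤ j → j ≤ h → (bad c b j).card ≤ j * r ^ (j - 1) := by
  intro j hj
  induction j, hj using Nat.le_induction with
  | base =>
    intro _
    simp only [le_refl, tsub_eq_zero_of_le, pow_zero, mul_one]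
    rw [card_le_one]
    intro a ha a' ha'
    obtain ⟨hm, h1⟩ := bad_mem ha
    obtain ⟨hm', h1'⟩ := bad_mem ha'
    have := h0 _ _ rfl rfl rfl rfl h1 h1'
    simpa using this
  | succ j hj ih =>
    intro hjh
    have ih' := ih (by omega)
    -- fibres of the parent map
    have hmaps : ∀ a ∈ bad c b (j + 1), a / r ∈ range (r ^ j) := by
      intro a ha
      obtain ⟨hm, _⟩ := bad_mem ha
      have := ((mem_nodes hr).1 hm).2.2
      simp only at this
      rw [mem_range, Nat.div_lt_iff_lt_mul hr]
      calc a < r ^ (j + 1) := this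
        _ = r ^ j * r := pow_succ _ _
    rw [card_eq_sum_card_fiberwise (f := fun a => a / r) (t := range (r ^ j))
      (fun a ha => hmaps a ha)]
    have hfib : ∀ p ∈ range (r ^ j), ((bad c b (j + 1)).filter (fun a => a / r = p)).card ≤
        (if p ∈ bad c b j then r else 0) + 1 := by
      intro p hp
      have hpm : (j, p) ∈ nodes h r := by
        rw [mem_nodes hr]; exact ⟨hj, by simp only; omega, mem_range.1 hp⟩
      by_cases hpb : p ∈ bad c b j
      · rw [if_pos hpb]
        have : ((bad c b (j + 1)).filter (fun a => a / r = p)).card ≤ (range r).card := by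
          apply card_le_card_of_injOn (fun a => a % r)
          · intro a _
            simp only [coe_range, Set.mem_Iio]
            exact Nat.mod_lt _ hr
          · intro a ha a' ha' haa'
            have e1 := (mem_filter.1 (mem_coe.1 ha)).2
            have e2 := (mem_filter.1 (mem_coe.1 ha')).2
            simp only at haa' e1 e2
            rw [← Nat.div_add_mod a r, ← Nat.div_add_mod a' r, e1, e2, haa']
        rw [card_range] at this
        omega
      · rw [if_neg hpb, zero_add, card_le_one]
        intro a ha a' ha'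
        obtain ⟨ha1, ha2⟩ := mem_filter.1 ha
        obtain ⟨ha1', ha2'⟩ := mem_filter.1 ha'
        obtain ⟨hm, h1⟩ := bad_mem ha1
        obtain ⟨hm', h1'⟩ := bad_mem ha1'
        have hgood : c (b, ⟨(j, p), hpm⟩) = b := by
          by_contra hne
          apply hpb
          rw [bad, mem_filter]
          refine ⟨hp, ?_⟩
          rw [col, dif_pos hpm]
          exact hne
        have := hc (b, ⟨(j, p), hpm⟩) (b, ⟨(j + 1, a), hm⟩) (b, ⟨(j + 1, a'), hm'⟩)
          (Or.inr ⟨rfl, rfl, ha2⟩) (Or.inr ⟨rfl, rfl, ha2'⟩)
          (by rw [hgood]; exact h1) (by rw [hgood]; exact h1')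
        simpa using this
    calc ∑ p ∈ range (r ^ j), ((bad c b (j + 1)).filter (fun a => a / r = p)).card
        ≤ ∑ p ∈ range (r ^ j), ((if p ∈ bad c b j then r else 0) + 1) := sum_le_sum hfib
      _ = ((range (r ^ j)).filter (fun p => p ∈ bad c b j)).card * r + r ^ j := by
          rw [sum_add_distrib, ← sum_filter, sum_const, sum_const, card_range]
          simp
      _ ≤ (bad c b j).card * r + r ^ j := by
          apply Nat.add_le_add_right
          apply Nat.mul_le_mul_right
          apply card_le_card
          intro p hp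
          exact (mem_filter.1 hp).2
      _ ≤ (j * r ^ (j - 1)) * r + r ^ j := by
          apply Nat.add_le_add_right
          exact Nat.mul_le_mul_right _ ih'
      _ = (j + 1) * r ^ (j + 1 - 1) := by
          obtain ⟨i, rfl⟩ : ∃ i, j = i + 1 := ⟨j - 1, by omega⟩
          simp only [Nat.add_sub_cancel]
          ring

/-- The leaves of a side. -/
def leaf {h r : ℕ} (hr : 1 ≤ r) (hh : 1 ≤ h) (b : Bool) (a : Fin (r ^ h)) : Option (W h r) :=
  some (b, ⟨(h, a.1), (mem_nodes hr).2 ⟨hh, le_rfl, a.2⟩⟩)

theorem leaf_inj {h r : ℕ} (hr : 1 ≤ r) (hh : 1 ≤ h) (b : Bool) :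
    Function.Injective (leaf (h := h) hr hh b) := by
  intro a a' haa'
  simp only [leaf, Option.some.injEq, Prod.mk.injEq, true_and, Subtype.mk.injEq] at haa'
  exact Fin.ext haa'


/-- The leaves of a side, as a finset. -/
def leaves {h r : ℕ} (hr : 1 ≤ r) (hh : 1 ≤ h) (b : Bool) : Finset (Option (W h r)) :=
  Finset.univ.map ⟨leaf hr hh b, leaf_inj hr hh b⟩

theorem leaves_card {h r : ℕ} (hr : 1 ≤ r) (hh : 1 ≤ h) (b : Bool) :
    (leaves (h := h) hr hh b).card = r ^ h := by
  simp [leaves]

theorem mem_leaves {h r : ℕ} {hr : 1 ≤ r} {hh : 1 ≤ h} {b : Bool} {v : Option (W h r)} :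
    v ∈ leaves hr hh b ↔ ∃ w : W h r, v = some w ∧ w.1 = b ∧ w.2.1.1 = h := by
  simp only [leaves, mem_map, mem_univ, true_and, Function.Embedding.coeFn_mk]
  constructor
  · rintro ⟨a, rfl⟩
    exact ⟨_, rfl, rfl, rfl⟩
  · rintro ⟨⟨b', ⟨⟨j, a⟩, hm⟩⟩, rfl, h1, h2⟩
    simp only at h1 h2
    subst h1 h2
    exact ⟨⟨a, ((mem_nodes hr).1 hm).2.2⟩, rfl⟩

open Classical in
/-- The counting contradiction. -/
theorem no_colouring {h r : ℕ} (hr : 1 ≤ r) (hh : 1 ≤ h) (hrh : r = 4 * h)
    (G : SimpleGraph (Option (W h r))) (hG0 : ∀ a b, (tree h r).Adj a b → G.Adj a b)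
    (hA : ∀ a ∈ leaves hr hh true, ((leaves hr hh false).filter (fun b => G.Adj a b)).card = 5)
    (hB : ∀ b ∈ leaves hr hh false, ((leaves hr hh true).filter (fun a => G.Adj a b)).card ≤ 10)
    (c : W h r → Bool)
    (hc : ∀ w w₁ w₂ : W h r, G.Adj (some w) (some w₁) →
      G.Adj (some w) (some w₂) → c w₁ ≠ c w → c w₂ ≠ c w → w₁ = w₂)
    (h0 : ∀ b, ∀ w₁ w₂ : W h r, w₁.1 = b → w₂.1 = b → w₁.2.1.1 = 1 → w₂.2.1.1 = 1 →
      c w₁ ≠ b → c w₂ ≠ b → w₁ = w₂) : False := by
  have hbad : ∀ b, 4 * (bad c b h).card ≤ r ^ h := by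
    intro b
    have h1 := bad_card hr c b
      (fun w w₁ w₂ h1 h2 => hc w w₁ w₂ (hG0 _ _ h1) (hG0 _ _ h2)) (h0 b) h hh le_rfl
    calc 4 * (bad c b h).card ≤ 4 * (h * r ^ (h - 1)) := Nat.mul_le_mul_left _ h1
      _ = (4 * h) * r ^ (h - 1) := by ring
      _ = r * r ^ (h - 1) := by rw [← hrh]
      _ = r ^ h := by rw [← pow_succ']; congr 1; omega
  set isBad : Option (W h r) → Prop := fun v => ∃ w, v = some w ∧ c w ≠ w.1 with hisBad
  -- the number of bad leaves of a side
  have hbadO : ∀ b, 4 * ((leaves hr hh b).filter isBad).card ≤ r ^ h := by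
    intro b
    refine le_trans (Nat.mul_le_mul_left 4 ?_) (hbad b)
    apply card_le_card_of_injOn (fun v => match v with | none => 0 | some w => w.2.1.2)
    · intro v hv
      obtain ⟨h1, h2⟩ := mem_filter.1 (mem_coe.1 hv)
      obtain ⟨w, rfl, hw1, hw2⟩ := mem_leaves.1 h1
      obtain ⟨w', hw', h3⟩ := h2
      rw [Option.some.injEq] at hw'
      subst hw'
      simp only
      obtain ⟨b', ⟨⟨j, a⟩, hm⟩⟩ := w
      simp only at hw1 hw2 h3
      subst hw1 hw2
      rw [mem_coe, bad, mem_filter, mem_range]
      refine ⟨((mem_nodes hr).1 hm).2.2, ?_⟩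
      rw [col, dif_pos hm]
      exact h3
    · intro v hv v' hv' hvv'
      obtain ⟨w, rfl, hw1, hw2⟩ := mem_leaves.1 (mem_filter.1 (mem_coe.1 hv)).1
      obtain ⟨w', rfl, hw1', hw2'⟩ := mem_leaves.1 (mem_filter.1 (mem_coe.1 hv')).1
      simp only at hvv'
      congr 1
      exact Prod.ext (hw1.trans hw1'.symm) (Subtype.ext (Prod.ext (hw2.trans hw2'.symm) hvv'))
  set A := leaves (h := h) hr hh true with hAdef
  set B := leaves (h := h) hr hh false with hBdef
  have hcardA : A.card = r ^ h := leaves_card hr hh true
  -- total number of cross edges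
  have htot : ∑ a ∈ A, (B.filter (fun b => G.Adj a b)).card = 5 * r ^ h := by
    rw [sum_congr rfl hA, sum_const, hcardA, smul_eq_mul, mul_comm]
  have hsplit := sum_filter_add_sum_filter_not A isBad
    (fun a => (B.filter (fun b => G.Adj a b)).card)
  -- bad left ends
  have hb1 : ∑ a ∈ A.filter isBad, (B.filter (fun b => G.Adj a b)).card =
      5 * (A.filter isBad).card := by
    rw [sum_congr rfl (fun a ha => hA a (mem_filter.1 ha).1), sum_const, smul_eq_mul, mul_comm]
  -- good left ends
  have hg1 : ∀ a ∈ A.filter (fun a => ¬ isBad a), (B.filter (fun b => G.Adj a b)).card ≤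
      1 + ((B.filter isBad).filter (fun b => G.Adj a b)).card := by
    intro a ha
    obtain ⟨haA, hag⟩ := mem_filter.1 ha
    obtain ⟨w, rfl, hw1, hw2⟩ := mem_leaves.1 haA
    have hcw : c w = true := by
      by_contra hne
      exact hag ⟨w, rfl, by rw [hw1]; exact hne⟩
    have h1 : (B.filter (fun b => G.Adj (some w) b)) ⊆
        ((B.filter (fun b => ¬ isBad b)).filter (fun b => G.Adj (some w) b)) ∪
          ((B.filter isBad).filter (fun b => G.Adj (some w) b)) := by
      intro b hb
      obtain ⟨hb1, hb2⟩ := mem_filter.1 hb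
      by_cases hbb : isBad b
      · exact mem_union_right _ (mem_filter.2 ⟨mem_filter.2 ⟨hb1, hbb⟩, hb2⟩)
      · exact mem_union_left _ (mem_filter.2 ⟨mem_filter.2 ⟨hb1, hbb⟩, hb2⟩)
    refine (card_le_card h1).trans ((card_union_le _ _).trans ?_)
    apply Nat.add_le_add_right
    rw [card_le_one]
    intro b hb b' hb'
    obtain ⟨hb1, hb2⟩ := mem_filter.1 hb
    obtain ⟨hb1', hb2'⟩ := mem_filter.1 hb'
    obtain ⟨hb3, hb4⟩ := mem_filter.1 hb1
    obtain ⟨hb3', hb4'⟩ := mem_filter.1 hb1'
    obtain ⟨u, rfl, hu1, hu2⟩ := mem_leaves.1 hb3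
    obtain ⟨u', rfl, hu1', hu2'⟩ := mem_leaves.1 hb3'
    have hcu : c u = false := by
      by_contra hne
      exact hb4 ⟨u, rfl, by rw [hu1]; exact hne⟩
    have hcu' : c u' = false := by
      by_contra hne
      exact hb4' ⟨u', rfl, by rw [hu1']; exact hne⟩
    rw [hc w u u' hb2 hb2' (by rw [hcu, hcw]; simp) (by rw [hcu', hcw]; simp)]
  have hg2 : ∑ a ∈ A.filter (fun a => ¬ isBad a), (B.filter (fun b => G.Adj a b)).card ≤
      r ^ h + 10 * (B.filter isBad).card := by
    calc ∑ a ∈ A.filter (fun a => ¬ isBad a), (B.filter (fun b => G.Adj a b)).card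
        ≤ ∑ a ∈ A.filter (fun a => ¬ isBad a),
            (1 + ((B.filter isBad).filter (fun b => G.Adj a b)).card) := sum_le_sum hg1
      _ ≤ ∑ a ∈ A, (1 + ((B.filter isBad).filter (fun b => G.Adj a b)).card) :=
          sum_le_sum_of_subset (filter_subset _ _)
      _ = r ^ h + ∑ a ∈ A, ((B.filter isBad).filter (fun b => G.Adj a b)).card := by
          rw [sum_add_distrib, sum_const, hcardA, smul_eq_mul, mul_one]
      _ = r ^ h + ∑ b ∈ B.filter isBad, (A.filter (fun a => G.Adj a b)).card := by
          congr 1
          exact sum_card_bipartiteAbove_eq_sum_card_bipartiteBelow (fun a b => G.Adj a b)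
      _ ≤ r ^ h + ∑ b ∈ B.filter isBad, 10 := by
          apply Nat.add_le_add_left
          exact sum_le_sum (fun b hb => hB b (mem_filter.1 hb).1)
      _ = r ^ h + 10 * (B.filter isBad).card := by
          rw [sum_const, smul_eq_mul, mul_comm]
  have hpos : 0 < r ^ h := Nat.pow_pos hr
  have e1 := hbadO true
  have e2 := hbadO false
  rw [← hAdef] at e1
  rw [← hBdef] at e2
  rw [htot, hb1] at hsplit
  omega

end Growth

open Growth in
/-- Module 2. -/
theorem growthGadget : GrowthGadget := by
  classical
  intro α
  set h : ℕ := 4 * α + 3 with hh0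
  set r : ℕ := 4 * h with hr0
  have hh : 1 ≤ h := by omega
  have hr : 1 ≤ r := by omega
  have hr12 : 12 ≤ r := by omega
  have hdisj : Disjoint (leaves (h := h) hr hh true) (leaves (h := h) hr hh false) := by
    rw [Finset.disjoint_left]
    intro v hv hv'
    obtain ⟨w, rfl, h1, _⟩ := mem_leaves.1 hv
    obtain ⟨w', hw', h1', _⟩ := mem_leaves.1 hv'
    rw [Option.some.injEq] at hw'
    subst hw'
    rw [h1] at h1'
    exact Bool.noConfusion h1'
  have hAB : ∀ a ∈ leaves (h := h) hr hh true, ∀ b ∈ leaves (h := h) hr hh false,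
      ¬ (tree h r).Adj a b := by
    intro a ha b hb hab
    obtain ⟨w, rfl, h1, _⟩ := mem_leaves.1 ha
    obtain ⟨w', rfl, h1', _⟩ := mem_leaves.1 hb
    have : w.1 = w'.1 := by
      rcases hab with h2 | h2
      · exact h2.1
      · exact h2.1.symm
    rw [h1, h1'] at this
    exact Bool.noConfusion this
  have hpow : 2 * ((2 * r + 16) + 1) ^ (2 * α + 1) ≤ (leaves (h := h) hr hh false).card := by
    rw [leaves_card]
    have h1 : (2 * r + 16) + 1 ≤ r ^ 2 := by nlinarith
    calc 2 * ((2 * r + 16) + 1) ^ (2 * α + 1) ≤ r * (r ^ 2) ^ (2 * α + 1) :=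
          Nat.mul_le_mul (by omega) (Nat.pow_le_pow_left h1 _)
      _ = r ^ h := by rw [← pow_mul, ← pow_succ', hh0]; congr 1; ring
  obtain ⟨G, hG0, hGN, hGadj, hGA, hGB⟩ := layer_lemma (2 * α) (tree h r) (tree_noShort hr _)
    (leaves hr hh true) (leaves hr hh false) hdisj 5 10 (2 * r + 16) hAB
    (by
      intro v
      have h1 := tree_deg hr v
      refine le_trans (Nat.add_le_add (Nat.add_le_add (b := 2 * r + 1) (d := 5) ?_ ?_)
        (?_ : _ ≤ 10)) (by omega)
      · convert h1
      · split_ifs <;> omega
      · split_ifs <;> omega)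
    (by rw [leaves_card, leaves_card]) hpow
  -- the attachment
  set att : W h r → Option (Fin 2) :=
    fun w => if w.2.1.1 = 1 then some (if w.1 then 0 else 1) else none with hatt
  have hatt1 : ∀ w, G.Adj none (some w) ↔ att w ≠ none := by
    intro w
    have h1 : G.Adj none (some w) ↔ w.2.1.1 = 1 := by
      constructor
      · intro hadj
        rcases hGadj _ _ hadj with h2 | ⟨h2, _⟩ | ⟨h2, _⟩
        · rcases h2 with h3 | h3
          · exact absurd h3 (by simp [P])
          · exact h3
        · obtain ⟨_, h3, _⟩ := mem_leaves.1 h2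
          exact absurd h3 (by simp)
        · obtain ⟨_, h3, _⟩ := mem_leaves.1 h2
          exact absurd h3 (by simp)
      · intro h2
        exact hG0 _ _ (Or.inr h2)
    rw [h1, hatt]
    simp only
    split_ifs with h2 <;> simp [h2]
  obtain ⟨g, e, hg1, hg2⟩ := exists_gadget (α := α) G att hatt1 hGN
    (fun w => (tree_conn hr w).mono (fun a b hab => hG0 a b hab))
  refine ⟨g, ?_⟩
  intro c hc1 hc2 hc3
  have hadj : ∀ w w' : W h r, G.Adj (some w) (some w') →
      g.Q.Adj (some (e.symm w)) (some (e.symm w')) := by
    intro w w' hww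
    rw [hg1]
    simpa using hww
  refine no_colouring hr hh hr0 G hG0 hGA hGB (fun w => c (e.symm w)) ?_ ?_
  · intro w w₁ w₂ h1 h2 h3 h4
    exact e.symm.injective (hc1 _ _ _ (hadj _ _ h1) (hadj _ _ h2) h3 h4)
  · intro b w₁ w₂ hb1 hb2 hl1 hl2 h3 h4
    have hat : ∀ w : W h r, w.1 = b → w.2.1.1 = 1 →
        g.att (e.symm w) = some (if b then 0 else 1) := by
      intro w hw1 hw2
      rw [hg2, Equiv.apply_symm_apply, hatt]
      simp only [hw2, if_true, hw1]
    apply e.symm.injective
    cases b with
    | true =>
      refine hc2 _ _ (by simpa using hat w₁ hb1 hl1) (by simpa using hat w₂ hb2 hl2) ?_ ?_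
      · simpa using h3
      · simpa using h4
    | false =>
      refine hc3 _ _ (by simpa using hat w₁ hb1 hl1) (by simpa using hat w₂ hb2 hl2) ?_ ?_
      · simpa using h3
      · simpa using h4

end Pool.Agent.Lib_helper88.Stretch
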