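import Pool.Agent.Lib_helper88.Stretch.Short

/-!
# MP_548ab2_lc, module 1: the greedy layer lemma
-/

namespace Pool.Agent.Lib_helper88.Stretch

open Finset

variable {V : Type*}

open Classical in
/-- Greedily add edges between `A` and `B`: every vertex of `A` gets exactly `s` new edges, every
vertex of `B` at most `s'`, and no short cycle arises. -/
theorem layer_lemma [Fintype V] (k : ℕ) (G₀ : SimpleGraph V) (hN : NoShort k G₀)
    (A B : Finset V) (hdisj : Disjoint A B) (s s' Δ : ℕ)
    (hAB : ∀ a ∈ A, ∀ b ∈ B, ¬ G₀.Adj a b)
    (hdeg : ∀ v, (Finset.univ.filter (fun u => G₀.Adj v u)).card + (if v ∈ A then s else 0) +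
      (if v ∈ B then s' else 0) ≤ Δ)
    (h1 : 2 * s * A.card ≤ s' * B.card) (h2 : 2 * (Δ + 1) ^ (k + 1) ≤ B.card) :
    ∃ G : SimpleGraph V, (∀ a b, G₀.Adj a b → G.Adj a b) ∧ NoShort k G ∧
      (∀ a b, G.Adj a b → G₀.Adj a b ∨ (a ∈ A ∧ b ∈ B) ∨ (a ∈ B ∧ b ∈ A)) ∧
      (∀ a ∈ A, (B.filter (fun b => G.Adj a b)).card = s) ∧
      (∀ b ∈ B, (A.filter (fun a => G.Adj a b)).card ≤ s') := by
  -- general target function
  have main : ∀ (N : ℕ) (f : V → ℕ), (∀ a, f a ≤ s) → ∑ a ∈ A, f a = N →
      ∃ G : SimpleGraph V, (∀ a b, G₀.Adj a b → G.Adj a b) ∧ NoShort k G ∧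
      (∀ a b, G.Adj a b → G₀.Adj a b ∨ (a ∈ A ∧ b ∈ B) ∨ (a ∈ B ∧ b ∈ A)) ∧
      (∀ a ∈ A, (B.filter (fun b => G.Adj a b)).card = f a) ∧
      (∀ b ∈ B, (A.filter (fun a => G.Adj a b)).card ≤ s') := by
    intro N
    induction N with
    | zero =>
      intro f hf hsum
      refine ⟨G₀, fun _ _ h => h, hN, fun a b h => Or.inl h, ?_, ?_⟩
      · intro a ha
        have hfa : f a = 0 := by
          have := Finset.sum_eq_zero_iff.1 hsum
          exact this a ha
        rw [hfa, card_eq_zero, filter_eq_empty_iff]
        intro b hb
        exact hAB a ha b hb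
      · intro b hb
        have : A.filter (fun a => G₀.Adj a b) = ∅ := by
          rw [filter_eq_empty_iff]
          intro a ha
          exact hAB a ha b hb
        rw [this]; simp
    | succ N ih =>
      intro f hf hsum
      -- pick a with positive demand
      obtain ⟨a, haA, hfa⟩ : ∃ a ∈ A, 0 < f a := by
        by_contra hcon
        push Not at hcon
        have : ∑ a ∈ A, f a = 0 := Finset.sum_eq_zero (fun a ha => Nat.le_zero.1 (hcon a ha))
        omega
      set f' : V → ℕ := Function.update f a (f a - 1) with hf'
      have hf's : ∀ x, f' x ≤ s := by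
        intro x
        rw [hf', Function.update_apply]
        split_ifs
        · have := hf a; omega
        · exact hf x
      have hsum' : ∑ x ∈ A, f' x = N := by
        have e1 : ∑ x ∈ A, f x = f a + ∑ x ∈ A.erase a, f x := (Finset.add_sum_erase A f haA).symm
        have e2 : ∑ x ∈ A, f' x = f' a + ∑ x ∈ A.erase a, f' x :=
          (Finset.add_sum_erase A f' haA).symm
        have e3 : ∑ x ∈ A.erase a, f' x = ∑ x ∈ A.erase a, f x := by
          apply Finset.sum_congr rfl
          intro x hx
          rw [hf', Function.update_of_ne (Finset.ne_of_mem_erase hx)]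
        have e4 : f' a = f a - 1 := by rw [hf', Function.update_self]
        omega
      obtain ⟨G, hG0, hGN, hGadj, hGA, hGB⟩ := ih f' hf's hsum'
      -- degree bound
      have hGdeg : ∀ v, (Finset.univ.filter (fun u => G.Adj v u)).card ≤ Δ := by
        intro v
        refine le_trans ?_ (hdeg v)
        have hsub : (Finset.univ.filter (fun u => G.Adj v u)) ⊆
            (Finset.univ.filter (fun u => G₀.Adj v u)) ∪
            ((if v ∈ A then B.filter (fun b => G.Adj v b) else ∅) ∪
             (if v ∈ B then A.filter (fun a => G.Adj a v) else ∅)) := by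
          intro u hu
          simp only [mem_filter, mem_univ, true_and] at hu
          rcases hGadj v u hu with h | ⟨h3, h4⟩ | ⟨h3, h4⟩
          · simp [h]
          · rw [if_pos h3]; simp [h4, hu]
          · rw [if_pos h3]; simp [h4, hu.symm]
        calc _ ≤ _ := card_le_card hsub
          _ ≤ _ := card_union_le _ _
          _ ≤ _ := Nat.add_le_add_left (card_union_le _ _) _
          _ ≤ _ := by
            rw [← add_assoc]
            apply Nat.add_le_add
            · apply Nat.add_le_add_left
              by_cases hv : v ∈ A
              · rw [if_pos hv, if_pos hv, hGA v hv]; exact hf's v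
              · rw [if_neg hv, if_neg hv]; simp
            · by_cases hv : v ∈ B
              · rw [if_pos hv, if_pos hv]; exact hGB v hv
              · rw [if_neg hv, if_neg hv]; simp
      -- the full vertices
      set F : Finset V := B.filter (fun b => s' ≤ (A.filter (fun a => G.Adj a b)).card) with hF
      have hcount : s' * F.card ≤ N := by
        have e1 : ∑ b ∈ B, (A.filter (fun a => G.Adj a b)).card = N := by
          have := Finset.sum_card_bipartiteAbove_eq_sum_card_bipartiteBelow (s := A) (t := B)
            (fun a b => G.Adj a b)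
          unfold bipartiteAbove bipartiteBelow at this
          rw [← this, ← hsum']
          exact Finset.sum_congr rfl (fun x hx => hGA x hx)
        rw [← e1]
        calc s' * F.card = ∑ b ∈ F, s' := by rw [Finset.sum_const, smul_eq_mul, mul_comm]
          _ ≤ ∑ b ∈ F, (A.filter (fun a => G.Adj a b)).card :=
            Finset.sum_le_sum (fun b hb => (mem_filter.1 hb).2)
          _ ≤ ∑ b ∈ B, (A.filter (fun a => G.Adj a b)).card :=
            Finset.sum_le_sum_of_subset (filter_subset _ _)
      have hNlt : N + 1 ≤ s * A.card := by
        rw [← hsum]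
        calc ∑ a ∈ A, f a ≤ ∑ a ∈ A, s := Finset.sum_le_sum (fun a _ => hf a)
          _ = s * A.card := by rw [Finset.sum_const, smul_eq_mul, mul_comm]
      have hFlt : 2 * F.card < B.card := by
        have h3 : s' * (2 * F.card) < s' * B.card := by
          calc s' * (2 * F.card) = 2 * (s' * F.card) := by ring
            _ ≤ 2 * N := by omega
            _ < 2 * (s * A.card) := by omega
            _ = 2 * s * A.card := by ring
            _ ≤ s' * B.card := h1
        exact Nat.lt_of_mul_lt_mul_left h3
      set Bl : Finset V := Finset.univ.filter (fun b => Dk G (k + 1) a b) with hBl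
      have hBlc : Bl.card ≤ (Δ + 1) ^ (k + 1) := ball_card G Δ hGdeg (k + 1) a
      obtain ⟨b, hbB, hbn⟩ : ∃ b ∈ B, b ∉ F ∪ Bl := by
        by_contra hcon
        push Not at hcon
        have : B.card ≤ (F ∪ Bl).card := card_le_card hcon
        have := card_union_le F Bl
        omega
      rw [mem_union, not_or] at hbn
      obtain ⟨hbF, hbBl⟩ := hbn
      have hbfull : (A.filter (fun a => G.Adj a b)).card < s' := by
        by_contra hcon
        exact hbF (mem_filter.2 ⟨hbB, not_lt.1 hcon⟩)
      have hfar : ¬ Dk G (k + 1) a b := by
        intro hcon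
        exact hbBl (mem_filter.2 ⟨mem_univ _, hcon⟩)
      have hab : a ≠ b := by
        rintro rfl
        exact hfar (Dk.refl _ _)
      have hnadj : ¬ G.Adj a b := fun hcon => hfar ((Dk.single hcon).mono_k (by omega))
      have haB : a ∉ B := fun hcon => (Finset.disjoint_left.1 hdisj haA) hcon
      have hbA : b ∉ A := fun hcon => (Finset.disjoint_left.1 hdisj hcon) hbB
      refine ⟨addE G a b hab, fun x y h => Or.inl (hG0 x y h), noShort_addE hab hGN hfar, ?_, ?_, ?_⟩
      · rintro x y (h | ⟨rfl, rfl⟩ | ⟨rfl, rfl⟩)
        · exact hGadj x y h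
        · exact Or.inr (Or.inl ⟨haA, hbB⟩)
        · exact Or.inr (Or.inr ⟨hbB, haA⟩)
      · intro x hx
        by_cases hxa : x = a
        · subst hxa
          have : B.filter (fun y => (addE G x b hab).Adj x y) =
              insert b (B.filter (fun y => G.Adj x y)) := by
            ext y
            simp only [mem_filter, mem_insert]
            constructor
            · rintro ⟨hy, h | ⟨_, rfl⟩ | ⟨h3, _⟩⟩
              · exact Or.inr ⟨hy, h⟩
              · exact Or.inl rfl
              · exact absurd h3 hab
            · rintro (rfl | ⟨hy, h⟩)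
              · exact ⟨hbB, Or.inr (Or.inl ⟨rfl, rfl⟩)⟩
              · exact ⟨hy, Or.inl h⟩
          rw [this, card_insert_of_notMem (by simp [hnadj]), hGA x hx, hf', Function.update_self]
          omega
        · have : B.filter (fun y => (addE G a b hab).Adj x y) =
              (B.filter (fun y => G.Adj x y)) := by
            ext y
            simp only [mem_filter]
            constructor
            · rintro ⟨hy, h | ⟨h3, _⟩ | ⟨h3, _⟩⟩
              · exact ⟨hy, h⟩
              · exact absurd h3 hxa
              · subst h3; exact absurd hx hbA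
            · rintro ⟨hy, h⟩
              exact ⟨hy, Or.inl h⟩
          rw [this, hGA x hx, hf', Function.update_of_ne hxa]
      · intro y hy
        by_cases hyb : y = b
        · subst hyb
          have : A.filter (fun x => (addE G a y hab).Adj x y) ⊆
              insert a (A.filter (fun x => G.Adj x y)) := by
            intro x
            simp only [mem_filter, mem_insert]
            rintro ⟨hx, h | ⟨rfl, _⟩ | ⟨_, h3⟩⟩
            · exact Or.inr ⟨hx, h⟩
            · exact Or.inl rfl
            · exact absurd h3.symm hab
          calc _ ≤ _ := card_le_card this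
            _ ≤ _ := card_insert_le _ _
            _ ≤ s' := hbfull
        · have : A.filter (fun x => (addE G a b hab).Adj x y) ⊆
              (A.filter (fun x => G.Adj x y)) := by
            intro x
            simp only [mem_filter]
            rintro ⟨hx, h | ⟨_, h3⟩ | ⟨h3, _⟩⟩
            · exact ⟨hx, h⟩
            · exact absurd h3 hyb
            · subst h3; exact absurd hx hbA
          exact le_trans (card_le_card this) (hGB y hy)
  exact main _ (fun _ => s) (fun _ => le_rfl) rfl

end Pool.Agent.Lib_helper88.Stretch
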