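import Pool.Agent.Lib_helper88.Stretch.Scheme

/-!
# MP_548ab2_lc, module 5b: phases, iteration, padding
-/

namespace Pool.Agent.Lib_helper88.Stretch

open Finset

theorem pow_calc (J' : ℕ) : (2 : ℝ) ^ (2 * J') ≤ (10 / 9) ^ (14 * J') := by
  have h : (2 : ℝ) ^ 2 ≤ (10 / 9) ^ 14 := by norm_num
  rw [pow_mul, pow_mul]
  exact pow_le_pow_left₀ (by positivity) h J'

theorem phase (hG : GrowthGadget) (hR : ReductionGadget) (α : ℕ) : ∃ k₀ N : ℕ, 2 ≤ k₀ ∧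
    ∀ (F : Frame α) (C : Finset ℕ), C.Nonempty → C.card ≤ k₀ → (∀ x ∈ C, x < F.n) →
      ∃ F' : Frame α, Ext F F' ∧ F'.n ≤ F.n + N ∧ ∃ C' : Finset ℕ, C'.Nonempty ∧ C'.card ≤ k₀ ∧
        (∀ x ∈ C', x < F'.n) ∧ ∀ d, Adm F' d →
          ∀ x ∈ C, ∀ y ∈ C, ∃ u ∈ C', ∃ v ∈ C', 2 * d x y ≤ d u v := by
  classical
  obtain ⟨NB, hNB1, hNB⟩ := macro_step hG α
  set A : ℕ := NB ^ 2 + NB with hA
  have hA2 : 2 ≤ A := by
    have : 1 ≤ NB ^ 2 := Nat.one_le_pow _ _ (by omega)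
    omega
  set q : ℕ := A ^ (14 * (2 * α + 1)) with hq
  have hq2 : 2 ≤ q := by
    calc 2 ≤ A := hA2
      _ = A ^ 1 := (pow_one A).symm
      _ ≤ q := Nat.pow_le_pow_right (by omega) (by omega)
  obtain ⟨k₁, hk₁⟩ := reduction_step hR α q (by omega)
  set k₀ : ℕ := max k₁ 2 with hk₀
  obtain ⟨R₀, hR₀⟩ : ∃ R₀ : ℕ, (4 * k₀ ^ 2) ^ (2 * α + 1) ≤ q ^ R₀ := by
    refine ⟨(4 * k₀ ^ 2) ^ (2 * α + 1), ?_⟩
    calc (4 * k₀ ^ 2) ^ (2 * α + 1) ≤ 2 ^ ((4 * k₀ ^ 2) ^ (2 * α + 1)) :=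
          Nat.le_of_lt Nat.lt_two_pow_self
      _ ≤ q ^ ((4 * k₀ ^ 2) ^ (2 * α + 1)) := Nat.pow_le_pow_left hq2 _
  set J' : ℕ := R₀ + 2 with hJ'
  set J : ℕ := 14 * J' with hJ
  set R : ℕ := R₀ + J' with hRdef
  set m : ℕ := 2 * (k₀ ^ 2 * A ^ J) with hm
  have hk₀2 : 2 ≤ k₀ := le_max_right _ _
  have hAJ : 1 ≤ A ^ J := Nat.one_le_pow _ _ (by omega)
  have hk₀sq : k₀ ≤ k₀ ^ 2 := by rw [pow_two]; exact Nat.le_mul_of_pos_left _ (by omega)
  have hkA : k₀ ≤ k₀ ^ 2 * A ^ J := le_trans hk₀sq (Nat.le_mul_of_pos_right _ (by omega))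
  have hmpos : 1 ≤ m := by omega
  have hcond : (2 * m) ^ (2 * α + 1) ≤ q ^ R := by
    have e1 : 2 * m = (4 * k₀ ^ 2) * A ^ J := by rw [hm]; ring
    rw [e1, mul_pow, hRdef, pow_add q]
    apply Nat.mul_le_mul hR₀
    rw [hq, ← pow_mul, ← pow_mul, hJ]
    apply le_of_eq
    congr 1
    ring
  obtain ⟨N, hN⟩ := hk₁ m R hmpos hcond
  refine ⟨k₀, k₀ ^ 2 * A ^ J + N, hk₀2, fun F C hCne hCk hC => ?_⟩
  obtain ⟨L, hLlen, hL1, hL2⟩ := pairs_list C
  have hLlen' : L.length ≤ k₀ ^ 2 := hLlen.trans (Nat.pow_le_pow_left hCk 2)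
  obtain ⟨F1, e1, n1, p1⟩ := list_step (A ^ J) (UnrollProp J) (unrollProp_mono J)
    (unroll NB hNB1 hNB J) L F (by
      intro p hp
      obtain ⟨h1, h2, h3⟩ := hL1 p hp
      exact ⟨hC _ h1, hC _ h2, h3⟩)
  have hn1 : F1.n ≤ F.n + k₀ ^ 2 * A ^ J := by
    have : A ^ J * L.length ≤ A ^ J * k₀ ^ 2 := Nat.mul_le_mul_left _ hLlen'
    rw [mul_comm (A ^ J) (k₀ ^ 2)] at this
    omega
  set C1 : Finset ℕ := C ∪ Finset.Ico F.n F1.n with hC1
  have hC1card : C1.card ≤ m := by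
    calc C1.card ≤ C.card + (Finset.Ico F.n F1.n).card := card_union_le _ _
      _ ≤ k₀ + k₀ ^ 2 * A ^ J := by
        rw [Nat.card_Ico]; omega
      _ ≤ m := by omega
  have hC1ne : C1.Nonempty := hCne.mono subset_union_left
  have hC1lt : ∀ x ∈ C1, x < F1.n := by
    intro x hx
    rcases mem_union.1 hx with h | h
    · exact lt_of_lt_of_le (hC x h) e1.1
    · exact (Finset.mem_Ico.1 h).2
  obtain ⟨F2, e2, n2, C', hC'ne, hC'card, hC'lt, p2⟩ := hN F1 C1 hC1ne hC1card hC1lt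
  refine ⟨F2, e1.trans e2, by omega, C', hC'ne, hC'card.trans (le_max_left _ _), hC'lt, ?_⟩
  intro d hd x hx y hy
  obtain ⟨u', hu', v', hv', hmax⟩ := p2 d hd
  refine ⟨u', hu', v', hv', ?_⟩
  have hd1 := e2.2 d hd
  by_cases hxy : x = y
  · subst hxy
    rw [hd.self]
    have := hd.nonneg u' v'
    linarith
  · obtain ⟨u, v, h1, h2, h3, h4⟩ := p1 d hd1 (x, y) (hL2 x hx y hy hxy)
    simp only at h1 h2 h4
    have hu : u ∈ C1 := by
      rcases h1 with rfl | rfl | h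
      · exact mem_union_left _ hx
      · exact mem_union_left _ hy
      · exact mem_union_right _ (Finset.mem_Ico.2 h)
    have hv : v ∈ C1 := by
      rcases h2 with rfl | rfl | h
      · exact mem_union_left _ hx
      · exact mem_union_left _ hy
      · exact mem_union_right _ (Finset.mem_Ico.2 h)
    have h5 := hmax u hu v hv
    have h6 : (2 : ℝ) ^ (2 * J') * d x y ≤ 2 ^ (R + 1) * d u' v' := by
      calc (2 : ℝ) ^ (2 * J') * d x y ≤ (10 / 9) ^ J * d x y :=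
            mul_le_mul_of_nonneg_right (pow_calc J') (hd.nonneg _ _)
        _ ≤ d u v := h4
        _ ≤ _ := h5
    have e3 : (2 : ℝ) ^ (2 * J') = 2 ^ (R + 1) * 2 := by
      rw [← pow_succ]
      congr 1
      omega
    rw [e3, mul_assoc] at h6
    exact le_of_mul_le_mul_left h6 (by positivity)

/-- The initial frame: one edge. -/
def initFrame (α : ℕ) : Frame α where
  n := 2
  G := { Adj := fun u v => (u = 0 ∧ v = 1) ∨ (u = 1 ∧ v = 0)
         symm := ⟨by rintro u v (h | h); exacts [Or.inr ⟨h.2, h.1⟩, Or.inl ⟨h.2, h.1⟩]⟩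
         loopless := ⟨by rintro u (h | h) <;> omega⟩ }
  b := fun _ => 0
  top := 0
  supp := by rintro u v (h | h) <;> omega
  btop := fun _ _ => le_rfl
  sep := by
    intro v p q hvp hvq hpq
    exfalso
    rcases hvp with h | h <;> rcases hvq with h' | h' <;> omega
  conn := by
    intro v hv
    by_cases h : v = 0
    · subst h; exact SimpleGraph.Reachable.refl _
    · have hv1 : v = 1 := by omega
      subst hv1
      apply SimpleGraph.Adj.reachable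
      exact ⟨Or.inr ⟨rfl, rfl⟩, le_rfl, le_rfl⟩

theorem phases (hG : GrowthGadget) (hR : ReductionGadget) (α : ℕ) : ∃ N : ℕ,
    ∀ ℓ : ℕ, ∃ F : Frame α, F.n ≤ 2 + N * ℓ ∧ 2 ≤ F.n ∧
      ∀ d, Adm F d → ∃ u v, u < F.n ∧ v < F.n ∧ 2 ^ ℓ * d 0 1 ≤ d u v := by
  classical
  obtain ⟨k₀, N, hk₀, hphase⟩ := phase hG hR α
  refine ⟨N, ?_⟩
  have main : ∀ ℓ : ℕ, ∃ (F : Frame α) (C : Finset ℕ), F.n ≤ 2 + N * ℓ ∧ 2 ≤ F.n ∧
      C.Nonempty ∧ C.card ≤ k₀ ∧ (∀ x ∈ C, x < F.n) ∧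
      ∀ d, Adm F d → ∃ u ∈ C, ∃ v ∈ C, 2 ^ ℓ * d 0 1 ≤ d u v := by
    intro ℓ
    induction ℓ with
    | zero =>
      refine ⟨initFrame α, {0, 1}, le_rfl, le_rfl, by simp, ?_, ?_, ?_⟩
      · exact le_trans (card_le_two) hk₀
      · intro x hx
        change x < 2
        simp only [mem_insert, mem_singleton] at hx
        omega
      · intro d hd
        exact ⟨0, by simp, 1, by simp, by simp⟩
    | succ ℓ ih =>
      obtain ⟨F, C, hn, hn2, hCne, hCk, hClt, hprop⟩ := ih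
      obtain ⟨F', e, n', C', hC'ne, hC'k, hC'lt, hp⟩ := hphase F C hCne hCk hClt
      refine ⟨F', C', ?_, hn2.trans e.1, hC'ne, hC'k, hC'lt, ?_⟩
      · rw [Nat.mul_succ]; omega
      · intro d hd
        obtain ⟨u, hu, v, hv, h1⟩ := hprop d (e.2 d hd)
        obtain ⟨u', hu', v', hv', h2⟩ := hp d hd u hu v hv
        refine ⟨u', hu', v', hv', ?_⟩
        calc (2 : ℝ) ^ (ℓ + 1) * d 0 1 = 2 * (2 ^ ℓ * d 0 1) := by rw [pow_succ]; ring
          _ ≤ 2 * d u v := by linarith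
          _ ≤ _ := h2
  intro ℓ
  obtain ⟨F, C, hn, hn2, hCne, hCk, hClt, hprop⟩ := main ℓ
  refine ⟨F, hn, hn2, fun d hd => ?_⟩
  obtain ⟨u, hu, v, hv, h⟩ := hprop d hd
  exact ⟨u, v, hClt u hu, hClt v hv, h⟩

/-- The pendant vertex gadget. -/
def pendant (α : ℕ) : Gadget α 1 where
  N := 1
  Q := ⊤
  att := fun _ => some 0
  att_iff := by intro w; simp
  noShort := by
    intro v p q hvp hvq hpq _
    rw [SimpleGraph.top_adj] at hvp hvq
    rcases v with _ | v <;> rcases p with _ | p <;> rcases q with _ | q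
    all_goals first
      | exact hvp rfl
      | exact hvq rfl
      | exact hpq rfl
      | (have := Subsingleton.elim p q; exact hpq (by rw [this]))
      | (have := Subsingleton.elim v p; exact hvp (by rw [this]))
      | (have := Subsingleton.elim v q; exact hvq (by rw [this]))
  conn := by
    intro w
    apply SimpleGraph.Adj.reachable
    simp

theorem padding {α : ℕ} (F : Frame α) (hF : 2 ≤ F.n) : ∀ k : ℕ, ∃ F' : Frame α,
    Ext F F' ∧ F'.n = F.n + k := by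
  intro k
  induction k with
  | zero => exact ⟨F, Ext.refl F, rfl⟩
  | succ k ih =>
    obtain ⟨F', e, hn⟩ := ih
    have hτ : ∀ j : Fin 1, (fun _ : Fin 1 => 0) j < F'.n := fun _ => by
      change 0 < F'.n; omega
    refine ⟨attach F' (pendant α) (fun _ => 0) hτ, e.trans (ext_attach _ _ _ _), ?_⟩
    change F'.n + 1 = F.n + (k + 1)
    omega

theorem frames (hG : GrowthGadget) (hR : ReductionGadget) (α : ℕ) : ∃ N : ℕ, 1 ≤ N ∧
    ∀ ℓ n : ℕ, 2 + N * ℓ ≤ n → ∃ F : Frame α, F.n = n ∧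
      ∀ d, Adm F d → ∃ u v, u < n ∧ v < n ∧ 2 ^ ℓ * d 0 1 ≤ d u v := by
  obtain ⟨N, hN⟩ := phases hG hR α
  refine ⟨N + 1, by omega, fun ℓ n hn => ?_⟩
  obtain ⟨F, h1, h2, h3⟩ := hN ℓ
  have h4 : F.n ≤ n := by
    have : N * ℓ ≤ (N + 1) * ℓ := Nat.mul_le_mul_right _ (by omega)
    omega
  obtain ⟨F', e, h5⟩ := padding F h2 (n - F.n)
  refine ⟨F', by omega, fun d hd => ?_⟩
  obtain ⟨u, v, hu, hv, h⟩ := h3 d (e.2 d hd)
  exact ⟨u, v, by omega, by omega, h⟩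

end Pool.Agent.Lib_helper88.Stretch
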