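import Pool.Agent.Lib_helper88.Stretch.Metric
import Pool.Agent.Lib_helper88.Stretch.Phase

/-!
# MP_548ab2_lc, module 7: the lower bound
-/

namespace Pool.Agent.Lib_helper88.Stretch

open Filter

/-- The `α`-stretch property is monotone in `α`. -/
theorem StretchPreserving.mono {V : Type*} [Fintype V] [DecidableEq V] {G : SimpleGraph V}
    (hG : G.Connected) {wG wH : Sym2 V → ℝ} (hw : IsWeighting G wG) {α β : ℝ} (hαβ : α ≤ β)
    (h : StretchPreserving α G wG wH) : StretchPreserving β G wG wH := by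
  intro s t π hπ hπ'
  refine (h s t π hπ hπ').trans ?_
  exact mul_le_mul_of_nonneg_right hαβ (wdist_nonneg hG hw s t)

/-- The bound for one frame. -/
theorem aspect_ge {α : ℕ} (F : Frame α) (hn : 2 ≤ F.n) (ℓ : ℕ)
    (hF : ∀ d, Adm F d → ∃ u v, u < F.n ∧ v < F.n ∧ 2 ^ ℓ * d 0 1 ≤ d u v)
    (wH : Sym2 (Fin F.n) → ℝ) (hw : IsWeighting (finG F) wH)
    (hv : StretchPreserving (α : ℝ) (finG F) (wG F) wH) :
    (2 : ℝ) ^ ℓ / F.n ≤ aspectRatio (finG F) wH := by
  classical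
  have hn0 : 0 < F.n := by omega
  have hconn := finG_connected F hn0
  have hadm := adm_of_valid F hn0 wH hw hv
  obtain ⟨u, v, hu, hv', huv⟩ := hF _ hadm
  haveI : Finite (finG F).edgeSet := Finite.of_fintype _
  have hbddA : BddAbove (Set.range fun e : (finG F).edgeSet => wH e) := Set.finite_range _ |>.bddAbove
  have hbddB : BddBelow (Set.range fun e : (finG F).edgeSet => wH e) := Set.finite_range _ |>.bddBelow
  -- there is an edge
  obtain ⟨e0⟩ : Nonempty (finG F).edgeSet := by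
    obtain ⟨π⟩ := hconn.preconnected (⟨0, by omega⟩ : Fin F.n) ⟨1, by omega⟩
    cases π with
    | cons h p => exact ⟨⟨_, (SimpleGraph.mem_edgeSet _).2 h⟩⟩
  haveI : Nonempty (finG F).edgeSet := ⟨e0⟩
  set a : ℝ := ⨅ e : (finG F).edgeSet, wH e with ha
  set b : ℝ := ⨆ e : (finG F).edgeSet, wH e with hb
  have hapos : 0 < a := by
    obtain ⟨e, he⟩ := exists_eq_ciInf_of_finite (f := fun e : (finG F).edgeSet => wH e)
    rw [ha, ← he]
    exact hw _ e.2
  have hale : ∀ e ∈ (finG F).edgeSet, a ≤ wH e := fun e he => ciInf_le hbddB ⟨e, he⟩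
  have hble : ∀ e ∈ (finG F).edgeSet, wH e ≤ b := fun e he =>
    le_ciSup (f := fun e : (finG F).edgeSet => wH e) hbddA ⟨e, he⟩
  have hb0 : 0 ≤ b := (hapos.le.trans (hale _ e0.2)).trans (hble _ e0.2)
  have h01 : a ≤ dH F hn0 wH 0 1 := by
    unfold dH
    apply le_wdist hconn hw hale
    rw [clamp_lt F hn0 (show 0 < F.n by omega), clamp_lt F hn0 (show 1 < F.n by omega)]
    simp
  have hub : dH F hn0 wH u v ≤ F.n * b := by
    have := wdist_le (w := wH) hconn hb0 hble (clamp F hn0 u) (clamp F hn0 v)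
    rw [Fintype.card_fin] at this
    exact this
  have hnpos : (0 : ℝ) < F.n := by exact_mod_cast hn0
  unfold aspectRatio
  rw [← ha, ← hb, div_le_div_iff₀ hnpos hapos]
  calc (2 : ℝ) ^ ℓ * a ≤ 2 ^ ℓ * dH F hn0 wH 0 1 :=
        mul_le_mul_of_nonneg_left h01 (by positivity)
    _ ≤ dH F hn0 wH u v := huv
    _ ≤ F.n * b := hub
    _ = b * F.n := by ring

/-- The exponential lower bound. -/
theorem lower_bound (hG : GrowthGadget) (hR : ReductionGadget) (α : ℝ) :
    ∃ N : ℕ, 1 ≤ N ∧ ∀ n : ℕ, 2 + N ≤ n → ∃ (G : SimpleGraph (Fin n)) (w : Sym2 (Fin n) → ℝ),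
      G.Connected ∧ IsWeighting G w ∧ ∀ wH, IsWeighting G wH → StretchPreserving α G w wH →
        (2 : ℝ) ^ ((n - 2) / N) / n ≤ aspectRatio G wH := by
  set a : ℕ := ⌈α⌉₊ with ha
  obtain ⟨N, hN1, hN⟩ := frames hG hR a
  refine ⟨N, hN1, fun n hn => ?_⟩
  obtain ⟨F, rfl, hF⟩ := hN ((n - 2) / N) n (by
    have := Nat.mul_div_le (n - 2) N
    omega)
  have hn2 : 2 ≤ F.n := by omega
  refine ⟨finG F, wG F, finG_connected F (by omega), wG_pos F, fun wH hw hst => ?_⟩
  exact aspect_ge F hn2 _ hF wH hw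
    (hst.mono (finG_connected F (by omega)) (wG_pos F) (Nat.le_ceil α))

end Pool.Agent.Lib_helper88.Stretch
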