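import Pool.Agent.Lib_helper88.Stretch.Frame
import Pool.Agent.Lib_helper88.Stretch.Dist

/-!
# MP_548ab2_lc, module 6: a valid reweighting of the staged graph gives an admissible metric
-/

namespace Pool.Agent.Lib_helper88.Stretch

variable {α : ℕ} (F : Frame α)

/-- The graph of the frame on the vertex type `Fin F.n`. -/
def finG : SimpleGraph (Fin F.n) where
  Adj u v := F.G.Adj u v
  symm := ⟨fun _ _ h => h.symm⟩
  loopless := ⟨fun _ h => h.ne rfl⟩

/-- The base of the weights. -/
noncomputable def base : ℝ := α * F.n + 2 * α + 2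

/-- The level of an edge. -/
def lev (e : Sym2 (Fin F.n)) : ℕ :=
  Sym2.lift ⟨fun u v : Fin F.n => max (F.b u) (F.b v), fun u v => max_comm _ _⟩ e

theorem lev_mk (u v : Fin F.n) : lev F s(u, v) = max (F.b u) (F.b v) := rfl

/-- The weighting of the staged graph. -/
noncomputable def wG (e : Sym2 (Fin F.n)) : ℝ := base F ^ lev F e

theorem base_ge : (2 : ℝ) ≤ base F := by
  unfold base
  have h1 : (0 : ℝ) ≤ α * F.n := by positivity
  have h2 : (0 : ℝ) ≤ α := by positivity
  linarith

theorem base_pos : (0 : ℝ) < base F := by linarith [base_ge F]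

theorem wG_pos : IsWeighting (finG F) (wG F) := fun _ _ => pow_pos (base_pos F) _

/-- Weights determine levels. -/
theorem lev_le_of_lt {e : Sym2 (Fin F.n)} {i : ℕ} (h : wG F e < base F ^ (i + 1)) :
    lev F e ≤ i := by
  by_contra hcon
  have h1 : i + 1 ≤ lev F e := by omega
  have h2 : base F ^ (i + 1) ≤ base F ^ lev F e :=
    pow_le_pow_right₀ (by linarith [base_ge F]) h1
  unfold wG at h
  linarith

/-- A cheap walk avoiding `v` gives a level walk. -/
theorem lw_of_walk {i : ℕ} {v p q : Fin F.n} (π : (finG F).Walk p q) :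
    walkWeight (wG F) π < base F ^ (i + 1) → v ∉ π.support →
      ∃ k : ℕ, Lw F.G F.b i v k p q ∧ (k : ℝ) * base F ^ i ≤ walkWeight (wG F) π := by
  induction π with
  | @nil a =>
    intro _ hv
    refine ⟨0, Lw.refl 0 _ ?_, by simp⟩
    intro h
    apply hv
    simp only [SimpleGraph.Walk.support_nil, List.mem_singleton]
    exact (Fin.ext h).symm
  | @cons a a' c hadj π ih =>
    intro hlt hv
    rw [walkWeight_cons] at hlt
    have h0 := walkWeight_nonneg (wG_pos F) π
    have h1 : 0 < wG F s(a, a') := pow_pos (base_pos F) _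
    have hl : lev F s(a, a') ≤ i := lev_le_of_lt F (by linarith)
    rw [SimpleGraph.Walk.support_cons, List.mem_cons, not_or] at hv
    obtain ⟨k, hk, hkw⟩ := ih (by linarith) hv.2
    have hne : (a : ℕ) ≠ (v : ℕ) := fun h => hv.1 (Fin.ext h).symm
    rw [lev_mk] at hl
    rcases lt_or_eq_of_le hl with hlt' | heq
    · refine ⟨k, Lw.low hadj hne hlt' hk, ?_⟩
      rw [walkWeight_cons]
      linarith
    · refine ⟨k + 1, Lw.top hadj hne heq hk, ?_⟩
      rw [walkWeight_cons]
      have : wG F s(a, a') = base F ^ i := by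
        unfold wG
        rw [lev_mk, heq]
      rw [this]
      push_cast
      linarith

theorem Lw.mono_k {G : SimpleGraph ℕ} {b : ℕ → ℕ} {i v k k' p q : ℕ} (hk : k ≤ k')
    (h : Lw G b i v k p q) : Lw G b i v k' p q := by
  induction h generalizing k' with
  | refl k a ha => exact Lw.refl k' a ha
  | low h1 h2 h3 _ ih => exact Lw.low h1 h2 h3 (ih hk)
  | @top k a a' c h1 h2 h3 _ ih =>
    obtain ⟨l, rfl⟩ : ∃ l, k' = l + 1 := ⟨k' - 1, by omega⟩
    exact Lw.top h1 h2 h3 (ih (by omega))

/-- A cheap walk from birth `i` to smaller birth passes an attachment. -/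
theorem exit_of_walk {i : ℕ} {m z : Fin F.n} (π : (finG F).Walk m z) :
    walkWeight (wG F) π < base F ^ (i + 1) → F.b m = i → F.b z < i →
      ∃ u a : Fin F.n, F.G.Adj u a ∧ F.b u = i ∧ F.b a < i ∧ a ∈ π.support := by
  induction π with
  | @nil a => intro _ h1 h2; omega
  | @cons a a' c hadj π ih =>
    intro hlt h1 h2
    rw [walkWeight_cons] at hlt
    have h0 := walkWeight_nonneg (wG_pos F) π
    have h3 : 0 < wG F s(a, a') := pow_pos (base_pos F) _
    have hl : lev F s(a, a') ≤ i := lev_le_of_lt F (by linarith)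
    rw [lev_mk] at hl
    by_cases hb : F.b a' = i
    · obtain ⟨u, x, h4, h5, h6, h7⟩ := ih (by linarith) hb h2
      exact ⟨u, x, h4, h5, h6, by rw [SimpleGraph.Walk.support_cons]; exact List.mem_cons_of_mem _ h7⟩
    · refine ⟨a, a', hadj, h1, by omega, ?_⟩
      rw [SimpleGraph.Walk.support_cons]
      exact List.mem_cons_of_mem _ (SimpleGraph.Walk.start_mem_support _)

/-- The edges of birth at most `i`, on `Fin F.n`. -/
def finLow (i : ℕ) : SimpleGraph (Fin F.n) where
  Adj u v := F.G.Adj u v ∧ F.b u ≤ i ∧ F.b v ≤ i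
  symm := ⟨fun _ _ h => ⟨h.1.symm, h.2.2, h.2.1⟩⟩
  loopless := ⟨fun _ h => h.1.ne rfl⟩

theorem finLow_le (i : ℕ) : finLow F i ≤ finG F := fun _ _ h => h.1

theorem finLow_reach {i : ℕ} {x y : ℕ} (hx : x < F.n) (hy : y < F.n)
    (h : (lowG F.G F.b i).Reachable x y) : (finLow F i).Reachable ⟨x, hx⟩ ⟨y, hy⟩ := by
  obtain ⟨p⟩ := h
  induction p with
  | nil => exact SimpleGraph.Reachable.refl _
  | @cons a b c hab p ih =>
    have hb : b < F.n := F.supp _ _ hab.1.symm
    have h1 : (finLow F i).Adj ⟨a, hx⟩ ⟨b, hb⟩ := hab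
    exact h1.reachable.trans (ih hb hy)

theorem finLow_conn {i : ℕ} {x y : ℕ} (hx : x < F.n) (hy : y < F.n) (hbx : F.b x ≤ i)
    (hby : F.b y ≤ i) : (finLow F i).Reachable ⟨x, hx⟩ ⟨y, hy⟩ := by
  apply finLow_reach
  have hm : ∀ j, j ≤ i → lowG F.G F.b j ≤ lowG F.G F.b i := fun j hj =>
    lowG_mono (fun a c h1 h2 h3 => ⟨h1, h2.trans hj, h3.trans hj⟩)
  exact ((F.conn x hx).mono (hm _ hbx)).trans ((F.conn y hy).mono (hm _ hby)).symm

theorem finG_connected (hn : 0 < F.n) : (finG F).Connected := by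
  rw [SimpleGraph.connected_iff]
  refine ⟨?_, ⟨⟨0, hn⟩⟩⟩
  intro x y
  have := finLow_conn F (i := F.top) x.2 y.2 (F.btop _ x.2) (F.btop _ y.2)
  exact this.mono (finLow_le F _)

/-- Distances in the staged graph between vertices of birth at most `i`. -/
theorem wdist_le_low (hn : 0 < F.n) {i : ℕ} {x y : Fin F.n} (hbx : F.b x ≤ i)
    (hby : F.b y ≤ i) : wdist (finG F) (wG F) x y ≤ F.n * base F ^ i := by
  classical
  obtain ⟨p⟩ := finLow_conn F (i := i) x.2 y.2 hbx hby
  set p' := p.bypass with hp'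
  have hlen : p'.length < F.n := by
    have := (SimpleGraph.Walk.bypass_isPath p).length_lt
    simpa using this
  have hw : ∀ {a c : Fin F.n} (r : (finLow F i).Walk a c),
      walkWeight (wG F) (r.mapLe (finLow_le F i)) ≤ r.length * base F ^ i := by
    intro a c r
    induction r with
    | nil => simp
    | @cons a a' c hadj r ih =>
      rw [SimpleGraph.Walk.mapLe, SimpleGraph.Walk.map_cons, walkWeight_cons,
        SimpleGraph.Walk.length_cons]
      have h1 : wG F s(a, a') ≤ base F ^ i := by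
        unfold wG
        apply pow_le_pow_right₀ (by linarith [base_ge F])
        rw [lev_mk]
        exact max_le hadj.2.1 hadj.2.2
      rw [SimpleGraph.Walk.mapLe] at ih
      push_cast
      refine le_trans (add_le_add h1 ih) ?_
      linarith
  refine (wdist_le_walk (wG_pos F) (p'.mapLe (finLow_le F i))).trans ((hw p').trans ?_)
  apply mul_le_mul_of_nonneg_right _ (pow_pos (base_pos F) _).le
  exact_mod_cast hlen.le

/-- The clamp. -/
def clamp (hn : 0 < F.n) (u : ℕ) : Fin F.n := if h : u < F.n then ⟨u, h⟩ else ⟨0, hn⟩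

theorem clamp_lt (hn : 0 < F.n) {u : ℕ} (h : u < F.n) : clamp F hn u = ⟨u, h⟩ := dif_pos h

/-- The metric of a reweighting. -/
noncomputable def dH (hn : 0 < F.n) (wH : Sym2 (Fin F.n) → ℝ) (u v : ℕ) : ℝ :=
  wdist (finG F) wH (clamp F hn u) (clamp F hn v)

theorem adm_of_valid (hn : 0 < F.n) (wH : Sym2 (Fin F.n) → ℝ)
    (hw : IsWeighting (finG F) wH) (hv : StretchPreserving (α : ℝ) (finG F) (wG F) wH) :
    Adm F (dH F hn wH) := by
  classical
  have hconn := finG_connected F hn
  have hb0 := base_pos F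
  have hb2 := base_ge F
  refine ⟨?_, ?_, ?_, ?_, ?_, ?_⟩
  · intro u; exact wdist_self hconn hw _
  · intro u v; exact wdist_symm hconn hw _ _
  · intro u v w; exact wdist_tri hconn hw _ _ _
  · intro u v hu hv' huv
    unfold dH
    rw [clamp_lt F hn hu, clamp_lt F hn hv']
    obtain ⟨π, _, h⟩ := exists_shortest (w := wH) hconn (⟨u, hu⟩ : Fin F.n) ⟨v, hv'⟩
    rw [← h]
    cases π with
    | nil => exact absurd rfl huv
    | cons h' p =>
      rw [walkWeight_cons]
      have h1 := hw _ ((SimpleGraph.mem_edgeSet _).2 h')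
      have h2 := walkWeight_nonneg hw p
      linarith
  · intro v p q hvp hvq hpq hlev
    have hvn : v < F.n := F.supp _ _ hvp
    have hpn : p < F.n := F.supp _ _ hvp.symm
    have hqn : q < F.n := F.supp _ _ hvq.symm
    unfold dH
    rw [clamp_lt F hn hvn, clamp_lt F hn hpn, clamp_lt F hn hqn]
    obtain ⟨π, hπp, hπ⟩ := exists_shortest (w := wH) hconn (⟨p, hpn⟩ : Fin F.n) ⟨q, hqn⟩
    by_cases hmem : (⟨v, hvn⟩ : Fin F.n) ∈ π.support
    · exact wdist_split hconn hw π hπ hmem
    · exfalso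
      set i : ℕ := max (F.b v) (F.b p) with hi
      have hst := hv _ _ π hπp hπ
      -- the distance in `G`
      have hadj1 : (finG F).Adj ⟨p, hpn⟩ ⟨v, hvn⟩ := hvp.symm
      have hadj2 : (finG F).Adj ⟨v, hvn⟩ ⟨q, hqn⟩ := hvq
      have hdG : wdist (finG F) (wG F) ⟨p, hpn⟩ ⟨q, hqn⟩ ≤ 2 * base F ^ i := by
        refine (wdist_le_walk (wG_pos F)
          (SimpleGraph.Walk.cons hadj1 (SimpleGraph.Walk.cons hadj2 SimpleGraph.Walk.nil))).trans ?_
        rw [walkWeight_cons, walkWeight_cons, walkWeight_nil]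
        have e1 : wG F s((⟨p, hpn⟩ : Fin F.n), ⟨v, hvn⟩) = base F ^ i := by
          unfold wG
          rw [lev_mk]
          change base F ^ max (F.b p) (F.b v) = _
          rw [max_comm]
        have e2 : wG F s((⟨v, hvn⟩ : Fin F.n), ⟨q, hqn⟩) = base F ^ i := by
          unfold wG
          rw [lev_mk]
          change base F ^ max (F.b v) (F.b q) = _
          rw [← hlev]
        rw [e1, e2]
        linarith
      have hα0 : (0 : ℝ) ≤ α := by positivity
      have hpowi : 0 < base F ^ i := pow_pos hb0 _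
      have hW : walkWeight (wG F) π ≤ 2 * α * base F ^ i := by
        calc walkWeight (wG F) π ≤ α * wdist (finG F) (wG F) ⟨p, hpn⟩ ⟨q, hqn⟩ := hst
          _ ≤ α * (2 * base F ^ i) := mul_le_mul_of_nonneg_left hdG hα0
          _ = 2 * α * base F ^ i := by ring
      have hlt : walkWeight (wG F) π < base F ^ (i + 1) := by
        refine lt_of_le_of_lt hW ?_
        rw [pow_succ, mul_comm (base F ^ i)]
        apply mul_lt_mul_of_pos_right _ hpowi
        unfold base
        have h1 : (0 : ℝ) ≤ α * F.n := by positivity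
        linarith
      obtain ⟨k, hk, hkw⟩ := lw_of_walk F π hlt hmem
      have hk2 : k ≤ 2 * α := by
        have h1 : (k : ℝ) * base F ^ i ≤ (2 * α) * base F ^ i := hkw.trans hW
        have h2 := le_of_mul_le_mul_right h1 hpowi
        exact_mod_cast h2
      exact F.sep v p q hvp hvq hpq hlev (hk.mono_k hk2)
  · intro m z hm hz hbz
    unfold dH
    rw [clamp_lt F hn hm, clamp_lt F hn hz]
    obtain ⟨π, hπp, hπ⟩ := exists_shortest (w := wH) hconn (⟨m, hm⟩ : Fin F.n) ⟨z, hz⟩
    set i : ℕ := F.b m with hi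
    have hst := hv _ _ π hπp hπ
    have hdG : wdist (finG F) (wG F) ⟨m, hm⟩ ⟨z, hz⟩ ≤ F.n * base F ^ i :=
      wdist_le_low F hn (x := ⟨m, hm⟩) (y := ⟨z, hz⟩) le_rfl hbz.le
    have hα0 : (0 : ℝ) ≤ α := by positivity
    have hpowi : 0 < base F ^ i := pow_pos hb0 _
    have hlt : walkWeight (wG F) π < base F ^ (i + 1) := by
      calc walkWeight (wG F) π ≤ α * wdist (finG F) (wG F) ⟨m, hm⟩ ⟨z, hz⟩ := hst
        _ ≤ α * (F.n * base F ^ i) := mul_le_mul_of_nonneg_left hdG hα0
        _ = (α * F.n) * base F ^ i := by ring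
        _ < base F * base F ^ i := by
          apply mul_lt_mul_of_pos_right _ hpowi
          unfold base
          linarith
        _ = base F ^ (i + 1) := by ring
    obtain ⟨u, a, h1, h2, h3, h4⟩ := exit_of_walk F π hlt rfl hbz
    refine ⟨u, a, h1, h2, h3, ?_⟩
    rw [clamp_lt F hn a.2]
    exact wdist_split hconn hw π hπ h4

end Pool.Agent.Lib_helper88.Stretch
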