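import Pool.Agent.Lib_helper88.Stretch.Layer

/-!
# MP_548ab2_lc, module 3: the reduction gadget
-/

namespace Pool.Agent.Lib_helper88.Stretch

open Finset

/-- A set of vertices split into layers `0, …, R`, layer `j` having `k₀ q ^ j` vertices,
numbered `0, 1, …`. -/
theorem exists_layers (k₀ q R : ℕ) : ∃ (N : ℕ) (lay idx : Fin N → ℕ),
    (∀ i, lay i ≤ R) ∧
    (∀ j ≤ R, (Finset.univ.filter (fun i => lay i = j)).card = k₀ * q ^ j) ∧
    (∀ i i', lay i = lay i' → idx i = idx i' → i = i') ∧
    (∀ i n, n ≤ idx i → ∃ i', lay i' = lay i ∧ idx i' = n) := by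
  classical
  obtain ⟨W, hWf, layW, idxW, h1, h2, h3, h4⟩ : ∃ (W : Type) (_ : Fintype W) (lay idx : W → ℕ),
      (∀ i, lay i ≤ R) ∧
      (∀ j ≤ R, (Finset.univ.filter (fun i => lay i = j)).card = k₀ * q ^ j) ∧
      (∀ i i', lay i = lay i' → idx i = idx i' → i = i') ∧
      (∀ i n, n ≤ idx i → ∃ i', lay i' = lay i ∧ idx i' = n) := by
    refine ⟨Σ j : Fin (R + 1), Fin (k₀ * q ^ (j : ℕ)), inferInstance, fun w => (w.1 : ℕ),
      fun w => (w.2 : ℕ), ?_, ?_, ?_, ?_⟩
    · intro i
      exact Nat.lt_succ_iff.1 i.1.2
    · intro j hj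
      have h1 : (Finset.univ : Finset (Fin (k₀ * q ^ j))).card =
          (Finset.univ.filter (fun i : Σ j : Fin (R + 1), Fin (k₀ * q ^ (j : ℕ)) =>
            (i.1 : ℕ) = j)).card := by
        apply Finset.card_bij (fun (a : Fin (k₀ * q ^ j)) _ => ⟨⟨j, by omega⟩, a⟩)
        · intro a _
          simp
        · intro a _ b _ hab
          exact eq_of_heq (Sigma.mk.inj hab).2
        · rintro ⟨⟨j', hj'⟩, a⟩ hi
          simp only [mem_filter, mem_univ, true_and] at hi
          subst hi
          exact ⟨a, mem_univ _, rfl⟩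
      rw [← h1]
      simp
    · rintro ⟨⟨j, hj⟩, a⟩ ⟨⟨j', hj'⟩, a'⟩ h1 h2
      simp only at h1 h2
      subst h1
      have h3 : a = a' := Fin.ext h2
      subst h3
      rfl
    · rintro ⟨⟨j, hj⟩, a⟩ n hn
      exact ⟨⟨⟨j, hj⟩, ⟨n, lt_of_le_of_lt hn a.2⟩⟩, rfl, rfl⟩
  let e : W ≃ Fin (Fintype.card W) := Fintype.equivFin W
  refine ⟨Fintype.card W, fun i => layW (e.symm i), fun i => idxW (e.symm i), ?_, ?_, ?_, ?_⟩
  · intro i
    exact h1 _
  · intro j hj
    rw [← h2 j hj]
    symm
    apply Finset.card_bij (fun w _ => e w)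
    · intro w hw
      simpa using hw
    · intro a _ b _ hab
      exact e.injective hab
    · intro i hi
      exact ⟨e.symm i, by simpa using hi, by simp⟩
  · intro i i' h5 h6
    exact e.symm.injective (h3 _ _ h5 h6)
  · intro i n hn
    obtain ⟨w, h5, h6⟩ := h4 _ n hn
    exact ⟨e w, by simpa using h5, by simpa using h6⟩

/-- The path through layer `0`. -/
def pathG {V : Type*} (lay idx : V → ℕ) : SimpleGraph V where
  Adj a b := lay a = 0 ∧ lay b = 0 ∧ (idx a + 1 = idx b ∨ idx b + 1 = idx a)
  symm := ⟨fun _ _ h => ⟨h.2.1, h.1, h.2.2.symm⟩⟩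
  loopless := ⟨fun _ h => by have := h.2.2; omega⟩

theorem noShort_pathG {V : Type*} (lay idx : V → ℕ)
    (hinj : ∀ i i', lay i = lay i' → idx i = idx i' → i = i') (k : ℕ) :
    NoShort k (pathG lay idx) := by
  intro v p q hvp hvq hpq hD
  have key : ∀ {k : ℕ} {a b : V}, Dk (del (pathG lay idx) v) k a b →
      (idx a < idx v ↔ idx b < idx v) := by
    intro k a b h
    induction h with
    | refl k a => exact Iff.rfl
    | @step k a b c hab _ ih =>
      rw [← ih]
      obtain ⟨⟨h1, h2, h3⟩, h4, h5⟩ := hab
      have h6 : idx a ≠ idx v := fun h => h4 (hinj _ _ (h1.trans hvp.1.symm) h)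
      have h7 : idx b ≠ idx v := fun h => h5 (hinj _ _ (h2.trans hvp.1.symm) h)
      omega
  have h1 := key hD
  obtain ⟨h2, h3, h4⟩ := hvp
  obtain ⟨h5, h6, h7⟩ := hvq
  have h8 : idx p ≠ idx q := fun h => hpq (hinj _ _ (h3.trans h6.symm) h)
  omega

open Classical in
theorem deg_pathG {V : Type*} [Fintype V] (lay idx : V → ℕ)
    (hinj : ∀ i i', lay i = lay i' → idx i = idx i' → i = i') (v : V) :
    (Finset.univ.filter (fun u => (pathG lay idx).Adj v u)).card ≤ 2 := by
  have h1 : (Finset.univ.filter (fun u => (pathG lay idx).Adj v u)).card =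
      ((Finset.univ.filter (fun u => (pathG lay idx).Adj v u)).image idx).card := by
    symm
    apply Finset.card_image_of_injOn
    intro a ha b hb hab
    simp only [coe_filter, mem_univ, true_and, Set.mem_ofPred_eq] at ha hb
    exact hinj a b (ha.2.1.trans hb.2.1.symm) hab
  rw [h1]
  have h2 : (Finset.univ.filter (fun u => (pathG lay idx).Adj v u)).image idx ⊆
      {idx v + 1, idx v - 1} := by
    intro n hn
    simp only [mem_image, mem_filter, mem_univ, true_and] at hn
    obtain ⟨u, ⟨_, _, hu⟩, rfl⟩ := hn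
    simp only [mem_insert, mem_singleton]
    omega
  exact le_trans (card_le_card h2) (card_le_two)

open Classical in
/-- Building the layers one after the other. -/
theorem layers_up {V : Type*} [Fintype V] (k q k₀ R : ℕ) (hq : 1 ≤ q)
    (hk₀ : 2 * (4 * q + 3) ^ (k + 1) ≤ k₀) (lay : V → ℕ)
    (hcard : ∀ j ≤ R, (Finset.univ.filter (fun v => lay v = j)).card = k₀ * q ^ j)
    (G₀ : SimpleGraph V) (hN : NoShort k G₀)
    (hG₀ : ∀ a b, G₀.Adj a b → lay a = 0 ∧ lay b = 0)
    (hdeg : ∀ v, (Finset.univ.filter (fun u => G₀.Adj v u)).card ≤ 2) :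
    ∀ j ≤ R, ∃ G : SimpleGraph V, (∀ a b, G₀.Adj a b → G.Adj a b) ∧ NoShort k G ∧
      (∀ a b, G.Adj a b → lay a ≤ j ∧ lay b ≤ j) ∧
      (∀ v, (Finset.univ.filter (fun u => G.Adj v u)).card ≤ 4 * q + 2) ∧
      (∀ v, lay v = j → (Finset.univ.filter (fun u => G.Adj v u)).card ≤ 2) ∧
      (∀ v, lay v ≠ 0 → lay v ≤ j → ∃ a b, a ≠ b ∧ G.Adj v a ∧ G.Adj v b ∧
        lay a + 1 = lay v ∧ lay b + 1 = lay v) := by
  intro j
  induction j with
  | zero =>
    intro _
    refine ⟨G₀, fun _ _ h => h, hN, ?_, ?_, ?_, ?_⟩
    · intro a b h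
      have := hG₀ a b h
      omega
    · intro v
      have := hdeg v
      omega
    · intro v _
      exact hdeg v
    · intro v h1 h2
      omega
  | succ j ih =>
    intro hj
    obtain ⟨G, hG0, hGN, hGl, hGd, hGd2, hG2⟩ := ih (by omega)
    have hdegz : ∀ v, j < lay v → (Finset.univ.filter (fun u => G.Adj v u)).card = 0 := by
      intro v hv
      rw [card_eq_zero, filter_eq_empty_iff]
      intro u _ hu
      have := (hGl _ _ hu).1
      omega
    have hqj : 1 ≤ q ^ j := Nat.one_le_pow _ _ hq
    obtain ⟨G', hG'0, hG'N, hG'e, hG'A, hG'B⟩ := layer_lemma k G hGN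
      (Finset.univ.filter (fun v => lay v = j + 1)) (Finset.univ.filter (fun v => lay v = j))
      (by
        rw [Finset.disjoint_left]
        intro v h1 h2
        simp only [mem_filter, mem_univ, true_and] at h1 h2
        omega)
      2 (4 * q) (4 * q + 2)
      (by
        intro a ha b hb hab
        simp only [mem_filter, mem_univ, true_and] at ha hb
        have := (hGl _ _ hab).1
        omega)
      (by
        intro v
        simp only [mem_filter, mem_univ, true_and]
        rcases lt_trichotomy (lay v) j with h | h | h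
        · rw [if_neg (by omega), if_neg (by omega)]
          have := hGd v
          omega
        · rw [if_neg (by omega), if_pos h]
          have := hGd2 v h
          omega
        · rw [hdegz v h]
          rw [if_neg (show ¬ lay v = j by omega)]
          split_ifs <;> omega)
      (by
        rw [hcard (j + 1) hj, hcard j (by omega)]
        apply le_of_eq
        ring)
      (by
        rw [hcard j (by omega)]
        calc 2 * (4 * q + 2 + 1) ^ (k + 1) = 2 * (4 * q + 3) ^ (k + 1) := by ring
          _ ≤ k₀ := hk₀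
          _ = k₀ * 1 := (mul_one _).symm
          _ ≤ k₀ * q ^ j := Nat.mul_le_mul_left _ hqj)
    have hsplit : ∀ v, (Finset.univ.filter (fun u => G'.Adj v u)).card ≤
        (Finset.univ.filter (fun u => G.Adj v u)).card +
        ((if lay v = j + 1 then 2 else 0) + (if lay v = j then 4 * q else 0)) := by
      intro v
      have hsub : (Finset.univ.filter (fun u => G'.Adj v u)) ⊆
          (Finset.univ.filter (fun u => G.Adj v u)) ∪
          ((if lay v = j + 1 then
              (Finset.univ.filter (fun v => lay v = j)).filter (fun b => G'.Adj v b) else ∅) ∪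
           (if lay v = j then
              (Finset.univ.filter (fun v => lay v = j + 1)).filter (fun a => G'.Adj a v)
              else ∅)) := by
        intro u hu
        simp only [mem_filter, mem_univ, true_and] at hu
        rcases hG'e v u hu with h | ⟨h3, h4⟩ | ⟨h3, h4⟩
        · simp [h]
        · simp only [mem_filter, mem_univ, true_and] at h3 h4
          rw [if_pos h3]
          simp [h4, hu]
        · simp only [mem_filter, mem_univ, true_and] at h3 h4
          rw [if_pos h3]
          simp [h4, hu.symm]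
      calc _ ≤ _ := card_le_card hsub
        _ ≤ _ := card_union_le _ _
        _ ≤ _ := Nat.add_le_add_left (card_union_le _ _) _
        _ ≤ _ := by
          apply Nat.add_le_add_left
          apply Nat.add_le_add
          · by_cases hv : lay v = j + 1
            · rw [if_pos hv, if_pos hv, hG'A v (by simp [hv])]
            · rw [if_neg hv, if_neg hv]; simp
          · by_cases hv : lay v = j
            · rw [if_pos hv, if_pos hv]; exact hG'B v (by simp [hv])
            · rw [if_neg hv, if_neg hv]; simp
    refine ⟨G', fun a b h => hG'0 a b (hG0 a b h), hG'N, ?_, ?_, ?_, ?_⟩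
    · intro a b hab
      rcases hG'e a b hab with h | ⟨h3, h4⟩ | ⟨h3, h4⟩
      · have := hGl a b h
        omega
      · simp only [mem_filter, mem_univ, true_and] at h3 h4
        omega
      · simp only [mem_filter, mem_univ, true_and] at h3 h4
        omega
    · intro v
      have h5 := hsplit v
      rcases lt_trichotomy (lay v) j with h | h | h
      · rw [if_neg (by omega), if_neg (by omega)] at h5
        have := hGd v
        omega
      · rw [if_neg (by omega), if_pos h] at h5
        have := hGd2 v h
        omega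
      · rw [hdegz v h, if_neg (show ¬ lay v = j by omega)] at h5
        split_ifs at h5 <;> omega
    · intro v hv
      have h5 := hsplit v
      rw [hdegz v (by omega), if_neg (show ¬ lay v = j by omega), if_pos hv] at h5
      omega
    · intro v hv0 hvj
      by_cases hv : lay v = j + 1
      · have h6 := hG'A v (by simp [hv])
        obtain ⟨a, b, hab, h7⟩ := Finset.card_eq_two.1 h6
        have ha : a ∈ (Finset.univ.filter (fun v => lay v = j)).filter (fun b => G'.Adj v b) := by
          rw [h7]; simp
        have hb : b ∈ (Finset.univ.filter (fun v => lay v = j)).filter (fun b => G'.Adj v b) := by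
          rw [h7]; simp
        simp only [mem_filter, mem_univ, true_and] at ha hb
        exact ⟨a, b, hab, ha.2, hb.2, by omega, by omega⟩
      · obtain ⟨a, b, hab, h1, h2, h3, h4⟩ := hG2 v hv0 (by omega)
        exact ⟨a, b, hab, hG'0 _ _ h1, hG'0 _ _ h2, h3, h4⟩

/-- **Module 3.** -/
theorem reductionGadget : ReductionGadget := by
  classical
  intro α q hq
  refine ⟨2 * (4 * q + 4) ^ (2 * α + 1), ?_⟩
  intro m R hm hR
  set k₀ : ℕ := 2 * (4 * q + 4) ^ (2 * α + 1) with hk₀
  obtain ⟨N, lay, idx, hlayR, hcard, hinj, hidx⟩ := exists_layers k₀ q R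
  -- the layer function on `Option (Fin N)`
  set layO : Option (Fin N) → ℕ := fun o => o.elim (R + 1) lay with hlayO
  set idxO : Option (Fin N) → ℕ := fun o => o.elim 0 idx with hidxO
  have hlayOs : ∀ w, layO (some w) = lay w := fun w => rfl
  have hlayOn : layO none = R + 1 := rfl
  have hidxOs : ∀ w, idxO (some w) = idx w := fun w => rfl
  have hcardO : ∀ j ≤ R, (Finset.univ.filter (fun v => layO v = j)).card = k₀ * q ^ j := by
    intro j hj
    rw [← hcard j hj]
    have h1 : (Finset.univ.filter (fun v => layO v = j)) =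
        (Finset.univ.filter (fun i => lay i = j)).map Function.Embedding.some := by
      ext v
      rcases v with _ | w
      · simp only [mem_filter, mem_univ, true_and, hlayOn, mem_map,
          Function.Embedding.some_apply, reduceCtorEq, and_false, exists_false, iff_false]
        omega
      · simp [hlayOs]
    rw [h1, card_map]
  have hinjO : ∀ i i', layO i = layO i' → idxO i = idxO i' → i = i' := by
    intro i i' h1 h2
    rcases i with _ | i <;> rcases i' with _ | i'
    · rfl
    · rw [hlayOn, hlayOs] at h1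
      have := hlayR i'
      omega
    · rw [hlayOn, hlayOs] at h1
      have := hlayR i
      omega
    · rw [hinj i i' h1 h2]
  have hk₀3 : 2 * (4 * q + 3) ^ (2 * α + 1) ≤ k₀ := by
    rw [hk₀]
    apply Nat.mul_le_mul_left
    exact Nat.pow_le_pow_left (by omega) _
  obtain ⟨G, hG0, hGN, hGl, hGd, -, hG2⟩ := layers_up (2 * α) q k₀ R hq hk₀3 layO hcardO
    (pathG layO idxO) (noShort_pathG layO idxO hinjO _) (fun a b h => ⟨h.1, h.2.1⟩)
    (deg_pathG layO idxO hinjO) R le_rfl
  have hnone : ∀ v, ¬ G.Adj none v := by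
    intro v hv
    have := (hGl _ _ hv).1
    rw [hlayOn] at this
    omega
  -- numerical facts
  have hpow : (2 * m + 4 * q + 4) ^ (2 * α + 1) ≤ (2 * m) ^ (2 * α + 1) *
      (4 * q + 4) ^ (2 * α + 1) := by
    rw [← mul_pow]
    apply Nat.pow_le_pow_left
    nlinarith
  have hbig : 2 * (2 * m + 4 * q + 4) ^ (2 * α + 1) ≤ k₀ * q ^ R := by
    calc 2 * (2 * m + 4 * q + 4) ^ (2 * α + 1)
        ≤ 2 * ((2 * m) ^ (2 * α + 1) * (4 * q + 4) ^ (2 * α + 1)) :=
          Nat.mul_le_mul_left _ hpow
      _ ≤ 2 * (q ^ R * (4 * q + 4) ^ (2 * α + 1)) :=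
          Nat.mul_le_mul_left _ (Nat.mul_le_mul_right _ hR)
      _ = k₀ * q ^ R := by rw [hk₀]; ring
  have hbig2 : 2 * (2 * m) ≤ k₀ * q ^ R := by
    refine le_trans ?_ hbig
    apply Nat.mul_le_mul_left
    calc 2 * m ≤ 2 * m + 4 * q + 4 := by omega
      _ = (2 * m + 4 * q + 4) ^ 1 := (pow_one _).symm
      _ ≤ (2 * m + 4 * q + 4) ^ (2 * α + 1) := Nat.pow_le_pow_right (by omega) (by omega)
  obtain ⟨Q, hQ0, hQN, hQe, hQA, -⟩ := layer_lemma (2 * α) G hGN {none}
    (Finset.univ.filter (fun v => layO v = R))
    (by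
      rw [Finset.disjoint_left]
      intro v h1 h2
      simp only [mem_singleton, mem_filter, mem_univ, true_and] at h1 h2
      subst h1
      rw [hlayOn] at h2
      omega)
    (2 * m) 1 (2 * m + 4 * q + 3)
    (by
      intro a ha b _ hab
      simp only [mem_singleton] at ha
      subst ha
      exact hnone b hab)
    (by
      intro v
      have h1 := hGd v
      split_ifs <;> omega)
    (by
      rw [hcardO R le_rfl, card_singleton]
      omega)
    (by
      rw [hcardO R le_rfl]
      exact hbig)
  -- the ports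
  have hQnone : ∀ v, Q.Adj none v → layO v = R := by
    intro v hv
    rcases hQe _ _ hv with h | ⟨_, h⟩ | ⟨h, _⟩
    · exact absurd h (hnone v)
    · simpa using h
    · simp only [mem_filter, mem_univ, true_and] at h
      rw [hlayOn] at h
      omega
  have hPcard : Fintype.card {w : Fin N // Q.Adj none (some w)} = Fintype.card (Fin m × Fin 2) := by
    rw [Fintype.card_subtype]
    have h1 := hQA none (by simp)
    have h2 : (Finset.univ.filter (fun v => layO v = R)).filter (fun b => Q.Adj none b) =
        (Finset.univ.filter (fun w : Fin N => Q.Adj none (some w))).map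
          Function.Embedding.some := by
      ext v
      simp only [mem_filter, mem_univ, true_and, mem_map, Function.Embedding.some_apply]
      constructor
      · rintro ⟨h3, h4⟩
        rcases v with _ | w
        · exact absurd h4 (Q.loopless.irrefl none)
        · exact ⟨w, h4, rfl⟩
      · rintro ⟨w, h3, rfl⟩
        exact ⟨hQnone _ h3, h3⟩
    rw [h2, card_map] at h1
    rw [h1]
    simp [mul_comm]
  have eP : {w : Fin N // Q.Adj none (some w)} ≃ Fin m × Fin 2 := Fintype.equivOfCardEq hPcard
  -- connectivity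
  have hpath : ∀ n, ∀ v, layO v = 0 → idxO v = n → ∀ v', layO v' = 0 → idxO v' = 0 →
      Q.Reachable v v' := by
    intro n
    induction n with
    | zero =>
      intro v h1 h2 v' h3 h4
      rw [hinjO v v' (h1.trans h3.symm) (h2.trans h4.symm)]
    | succ n ih =>
      intro v h1 h2 v' h3 h4
      rcases v with _ | w
      · rw [hlayOn] at h1
        omega
      · obtain ⟨w', h5, h6⟩ := hidx w n (by rw [hidxOs] at h2; omega)
        have h7 : Q.Adj (some w) (some w') := by
          apply hQ0
          apply hG0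
          refine ⟨h1, ?_, ?_⟩
          · rw [hlayOs, h5]; exact h1
          · right
            rw [hidxOs, hidxOs, h6]
            exact h2.symm
        exact h7.reachable.trans (ih (some w') (by rw [hlayOs, h5]; exact h1)
          (by rw [hidxOs]; exact h6) v' h3 h4)
  have hdown : ∀ n, ∀ v, layO v = n → n ≤ R → ∃ u, layO u = 0 ∧ Q.Reachable v u := by
    intro n
    induction n with
    | zero =>
      intro v h1 _
      exact ⟨v, h1, SimpleGraph.Reachable.refl v⟩
    | succ n ih =>
      intro v h1 h2
      obtain ⟨a, b, _, h3, _, h5, _⟩ := hG2 v (by omega) (by omega)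
      obtain ⟨u, h6, h7⟩ := ih a (by omega) (by omega)
      exact ⟨u, h6, (hQ0 _ _ h3).reachable.trans h7⟩
  have hroot : ∃ r, layO r = 0 ∧ idxO r = 0 := by
    have h1 : 0 < (Finset.univ.filter (fun v => layO v = 0)).card := by
      rw [hcardO 0 (Nat.zero_le _)]
      positivity
    obtain ⟨v, hv⟩ := Finset.card_pos.1 h1
    simp only [mem_filter, mem_univ, true_and] at hv
    rcases v with _ | w
    · rw [hlayOn] at hv
      omega
    · obtain ⟨w', h5, h6⟩ := hidx w 0 (Nat.zero_le _)
      exact ⟨some w', by rw [hlayOs, h5]; exact hv, by rw [hidxOs]; exact h6⟩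
  obtain ⟨r, hr0, hr1⟩ := hroot
  have hreach : ∀ v, layO v ≤ R → Q.Reachable v r := by
    intro v hv
    obtain ⟨u, h1, h2⟩ := hdown _ v rfl hv
    exact h2.trans (hpath _ u h1 rfl r hr0 hr1)
  have hnoneR : Q.Reachable none r := by
    have h1 := (eP.symm (⟨0, hm⟩, 0)).2
    exact h1.reachable.trans (hreach _ (by rw [hQnone _ h1]))
  refine ⟨⟨N, Q, fun w => if h : Q.Adj none (some w) then some (eP ⟨w, h⟩).1 else none,
    ?_, hQN, ?_⟩, ?_, ?_⟩
  · intro w
    by_cases h : Q.Adj none (some w)
    · simp [h]
    · simp [h]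
  · intro w
    exact (hreach (some w) (by rw [hlayOs]; exact hlayR w)).trans hnoneR.symm
  · refine ⟨lay, hlayR, ?_, ?_⟩
    · rw [hcard 0 (Nat.zero_le _)]
      simp
    · intro w hw
      obtain ⟨a, b, hab, h1, h2, h3, h4⟩ := hG2 (some w) (by rw [hlayOs]; exact hw)
        (by rw [hlayOs]; exact hlayR w)
      rcases a with _ | a
      · exact absurd h1.symm (hnone _)
      rcases b with _ | b
      · exact absurd h2.symm (hnone _)
      refine ⟨a, b, fun h => hab (by rw [h]), hQ0 _ _ h1, hQ0 _ _ h2, ?_, ?_⟩
      · rw [hlayOs, hlayOs] at h3; exact h3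
      · rw [hlayOs, hlayOs] at h4; exact h4
  · intro j
    refine ⟨(eP.symm (j, 0)).1, (eP.symm (j, 1)).1, ?_, ?_, ?_⟩
    · intro h
      have h1 : eP.symm (j, 0) = eP.symm (j, 1) := Subtype.ext h
      have h2 := eP.symm.injective h1
      simp at h2
    · have h1 := (eP.symm (j, 0)).2
      simp [h1]
    · have h1 := (eP.symm (j, 1)).2
      simp [h1]

end Pool.Agent.Lib_helper88.Stretch
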