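import Pool.Agent.Lib_helper88.Stretch.Frame

/-!
# MP_548ab2_lc, module 5: the growth scheme
-/

namespace Pool.Agent.Lib_helper88.Stretch

open Finset

/-- Apply a step to every pair of a list, successively. -/
theorem list_step {α : ℕ} (N : ℕ) (Φ : (ℕ → ℕ → ℝ) → ℕ → ℕ → ℕ → ℕ → Prop)
    (hmono : ∀ d lo hi lo' hi' x y, lo' ≤ lo → hi ≤ hi' → Φ d lo hi x y → Φ d lo' hi' x y)
    (hstep : ∀ (F : Frame α) (x y : ℕ), x < F.n → y < F.n → x ≠ y →
      ∃ F' : Frame α, Ext F F' ∧ F'.n ≤ F.n + N ∧ ∀ d, Adm F' d → Φ d F.n F'.n x y) :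
    ∀ (L : List (ℕ × ℕ)) (F : Frame α), (∀ p ∈ L, p.1 < F.n ∧ p.2 < F.n ∧ p.1 ≠ p.2) →
      ∃ F' : Frame α, Ext F F' ∧ F'.n ≤ F.n + N * L.length ∧
        ∀ d, Adm F' d → ∀ p ∈ L, Φ d F.n F'.n p.1 p.2 := by
  intro L
  induction L with
  | nil => intro F _; exact ⟨F, Ext.refl F, by simp, by simp⟩
  | cons p L ih =>
    intro F hL
    have hp := hL p (by simp)
    obtain ⟨F1, hF1, hn1, hΦ1⟩ := hstep F p.1 p.2 hp.1 hp.2.1 hp.2.2
    obtain ⟨F2, hF2, hn2, hΦ2⟩ := ih F1 (by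
      intro p' hp'
      have := hL p' (by simp [hp'])
      exact ⟨lt_of_lt_of_le this.1 hF1.1, lt_of_lt_of_le this.2.1 hF1.1, this.2.2⟩)
    refine ⟨F2, hF1.trans hF2, ?_, ?_⟩
    · rw [List.length_cons, Nat.mul_succ]
      omega
    · intro d hd p' hp'
      rcases List.mem_cons.1 hp' with rfl | hp'
      · exact hmono _ _ _ _ _ _ _ le_rfl hF2.1 (hΦ1 d (hF2.2 d hd))
      · exact hmono _ _ _ _ _ _ _ hF1.1 le_rfl (hΦ2 d hd p' hp')

/-- One growth step. -/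
def StepProp (d : ℕ → ℕ → ℝ) (lo hi x y : ℕ) : Prop :=
  ∃ m, lo ≤ m ∧ m < hi ∧ ∀ z < lo, d x y / 3 + min (d x z) (d y z) ≤ d m z

theorem stepProp_mono : ∀ d lo hi lo' hi' x y, lo' ≤ lo → hi ≤ hi' →
    StepProp d lo hi x y → StepProp d lo' hi' x y := by
  rintro d lo hi lo' hi' x y h1 h2 ⟨m, h3, h4, h5⟩
  exact ⟨m, h1.trans h3, lt_of_lt_of_le h4 h2, fun z hz => h5 z (lt_of_lt_of_le hz h1)⟩

theorem growth_step (hG : GrowthGadget) (α : ℕ) : ∃ N : ℕ, ∀ (F : Frame α) (x y : ℕ),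
    x < F.n → y < F.n → x ≠ y →
      ∃ F' : Frame α, Ext F F' ∧ F'.n ≤ F.n + N ∧ ∀ d, Adm F' d → StepProp d F.n F'.n x y := by
  classical
  obtain ⟨g, hg⟩ := hG α
  refine ⟨g.N, fun F x y hx hy hxy => ?_⟩
  set τ : Fin 2 → ℕ := ![x, y] with hτdef
  have hτ : ∀ j, τ j < F.n := by
    intro j
    fin_cases j
    · simpa [hτdef] using hx
    · simpa [hτdef] using hy
  have hτ0 : τ 0 = x := by simp [hτdef]
  have hτ1 : τ 1 = y := by simp [hτdef]
  refine ⟨attach F g τ hτ, ext_attach F g τ hτ, le_rfl, fun d hd => ?_⟩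
  have hdF := (ext_attach F g τ hτ).2 d hd
  have hD : 0 < d x y := hdF.pos x y hx hy hxy
  by_contra hcon
  -- every new vertex is near `x` or near `y`
  have hnear : ∀ w : Fin g.N, d (F.n + w) x < d x y / 3 ∨ d (F.n + w) y < d x y / 3 := by
    intro w
    by_contra hw
    push Not at hw
    apply hcon
    refine ⟨F.n + w, Nat.le_add_right _ _, ?_, ?_⟩
    · change F.n + (w : ℕ) < F.n + g.N
      omega
    · intro z hz
      obtain ⟨j, hj⟩ := hd.exit_new w hz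
      rw [hj]
      have h1 := min_le_left (d x z) (d y z)
      have h2 := min_le_right (d x z) (d y z)
      fin_cases j
      · simp only [Fin.zero_eta, hτ0]
        linarith [hw.1]
      · simp only [Fin.mk_one, hτ1]
        linarith [hw.2]
  refine hg (fun w => decide (d (F.n + w) x < d x y / 3)) ?_ ?_ ?_
  · intro w w₁ w₂ h1 h2 hc1 hc2
    by_contra hne
    have hb := hd.btw_new h1 h2 hne
    simp only [ne_eq, decide_eq_decide] at hc1 hc2
    have t1 := hd.tri (F.n + w₁) y (F.n + w₂)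
    have t2 := hd.tri (F.n + w₁) x (F.n + w₂)
    have s1 := hd.symm y (F.n + w₂)
    have s2 := hd.symm x (F.n + w₂)
    -- distances between `w` and `wᵢ`
    have u1 := hd.tri x (F.n + w₁) y
    have u1' := hd.tri x (F.n + w) y
    have u2 := hd.tri x (F.n + w) (F.n + w₁)
    have u3 := hd.tri (F.n + w) (F.n + w₁) y
    have v1 := hd.tri (F.n + w) (F.n + w₂) y
    have v2 := hd.tri (F.n + w₁) (F.n + w) y
    have v3 := hd.tri (F.n + w₂) (F.n + w) y
    have v4 := hd.tri x (F.n + w₁) y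
    have v5 := hd.tri x (F.n + w₂) y
    have v6 := hd.symm x (F.n + w)
    have v7 := hd.symm x (F.n + w₁)
    have v8 := hd.symm (F.n + w) (F.n + w₁)
    have v9 := hd.symm (F.n + w) (F.n + w₂)
    by_cases hw : d (F.n + w) x < d x y / 3
    · have hw1 : ¬ d (F.n + w₁) x < d x y / 3 := fun h => hc1 ⟨fun _ => hw, fun _ => h⟩
      have hw2 : ¬ d (F.n + w₂) x < d x y / 3 := fun h => hc2 ⟨fun _ => hw, fun _ => h⟩
      have hy1 := (hnear w₁).resolve_left hw1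
      have hy2 := (hnear w₂).resolve_left hw2
      linarith
    · have hw1 : d (F.n + w₁) x < d x y / 3 := by
        by_contra h; exact hc1 ⟨fun h' => absurd h' h, fun h' => absurd h' hw⟩
      have hw2 : d (F.n + w₂) x < d x y / 3 := by
        by_contra h; exact hc2 ⟨fun h' => absurd h' h, fun h' => absurd h' hw⟩
      have hy := (hnear w).resolve_left hw
      linarith
  · intro w₁ w₂ h1 h2 hc1 hc2
    by_contra hne
    have hb := hd.btw_term h1 h2 hne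
    rw [hτ0] at hb
    simp only [decide_eq_false_iff_not] at hc1 hc2
    have hy1 := (hnear w₁).resolve_left hc1
    have hy2 := (hnear w₂).resolve_left hc2
    have t1 := hd.tri (F.n + w₁) y (F.n + w₂)
    have s1 := hd.symm y (F.n + w₂)
    have t2 := hd.tri x (F.n + w₁) y
    have t3 := hd.tri x (F.n + w₂) y
    have s2 := hd.symm x (F.n + w₁)
    linarith
  · intro w₁ w₂ h1 h2 hc1 hc2
    by_contra hne
    have hb := hd.btw_term h1 h2 hne
    rw [hτ1] at hb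
    simp only [decide_eq_true_eq] at hc1 hc2
    have t1 := hd.tri (F.n + w₁) x (F.n + w₂)
    have s1 := hd.symm x (F.n + w₂)
    have s3 := hd.symm x (F.n + w₁)
    have t2 := hd.tri x (F.n + w₁) y
    have t3 := hd.tri x (F.n + w₂) y
    have s2 := hd.symm (F.n + w₂) y
    linarith

/-- The ordered pairs of distinct elements of a finite set, as a list. -/
theorem pairs_list (C : Finset ℕ) : ∃ L : List (ℕ × ℕ), L.length ≤ C.card ^ 2 ∧
    (∀ p ∈ L, p.1 ∈ C ∧ p.2 ∈ C ∧ p.1 ≠ p.2) ∧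
    (∀ x ∈ C, ∀ y ∈ C, x ≠ y → (x, y) ∈ L) := by
  refine ⟨((C ×ˢ C).filter (fun p => p.1 ≠ p.2)).toList, ?_, ?_, ?_⟩
  · rw [Finset.length_toList]
    calc _ ≤ (C ×ˢ C).card := card_filter_le _ _
      _ = C.card ^ 2 := by rw [card_product]; ring
  · intro p hp
    rw [Finset.mem_toList, mem_filter, mem_product] at hp
    exact ⟨hp.1.1, hp.1.2, hp.2⟩
  · intro x hx y hy hxy
    rw [Finset.mem_toList, mem_filter, mem_product]
    exact ⟨⟨hx, hy⟩, hxy⟩

theorem macro_step (hG : GrowthGadget) (α : ℕ) : ∃ N : ℕ, 1 ≤ N ∧ ∀ (F : Frame α) (x y : ℕ),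
    x < F.n → y < F.n → x ≠ y →
      ∃ F' : Frame α, Ext F F' ∧ F'.n ≤ F.n + N ∧ ∀ d, Adm F' d →
        ∃ u v, F.n ≤ u ∧ u < F'.n ∧ F.n ≤ v ∧ v < F'.n ∧ u ≠ v ∧ 10 / 9 * d x y ≤ d u v := by
  obtain ⟨N, hN⟩ := growth_step hG α
  refine ⟨4 * N + 2 * (N * (4 * N) ^ 2) + 1, by omega, fun F x y hx hy hxy => ?_⟩
  obtain ⟨F1, e1, n1, p1⟩ := hN F x y hx hy hxy
  obtain ⟨F2, e2, n2, p2⟩ := hN F1 x y (lt_of_lt_of_le hx e1.1) (lt_of_lt_of_le hy e1.1) hxy
  have e12 := e1.trans e2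
  obtain ⟨F3, e3, n3, p3⟩ := hN F2 x y (lt_of_lt_of_le hx e12.1) (lt_of_lt_of_le hy e12.1) hxy
  have e13 := e12.trans e3
  obtain ⟨F4, e4, n4, p4⟩ := hN F3 x y (lt_of_lt_of_le hx e13.1) (lt_of_lt_of_le hy e13.1) hxy
  have e14 := e13.trans e4
  obtain ⟨L, hLlen, hL1, hL2⟩ := pairs_list (Finset.Ico F.n F4.n)
  have hcard : (Finset.Ico F.n F4.n).card ≤ 4 * N := by
    rw [Nat.card_Ico]; omega
  have hLlen' : L.length ≤ (4 * N) ^ 2 := hLlen.trans (Nat.pow_le_pow_left hcard 2)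
  obtain ⟨F5, e5, n5, p5⟩ := list_step N StepProp stepProp_mono hN L F4 (by
    intro p hp
    obtain ⟨h1, h2, h3⟩ := hL1 p hp
    exact ⟨(Finset.mem_Ico.1 h1).2, (Finset.mem_Ico.1 h2).2, h3⟩)
  obtain ⟨F6, e6, n6, p6⟩ := list_step N StepProp stepProp_mono hN L F5 (by
    intro p hp
    obtain ⟨h1, h2, h3⟩ := hL1 p hp
    exact ⟨lt_of_lt_of_le (Finset.mem_Ico.1 h1).2 e5.1,
      lt_of_lt_of_le (Finset.mem_Ico.1 h2).2 e5.1, h3⟩)
  refine ⟨F6, (e14.trans e5).trans e6, ?_, ?_⟩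
  · have h1 : N * L.length ≤ N * (4 * N) ^ 2 := Nat.mul_le_mul_left _ hLlen'
    omega
  · intro d hd6
    have hd5 := e6.2 d hd6
    have hd4 := e5.2 d hd5
    have hd3 := e4.2 d hd4
    have hd2 := e3.2 d hd3
    have hd1 := e2.2 d hd2
    have hd0 := e1.2 d hd1
    have hD : 0 < d x y := hd0.pos x y hx hy hxy
    have hs := hd0.symm
    have hself := hd0.self
    have hnn := hd0.nonneg
    obtain ⟨m1, l1, h1, q1⟩ := p1 d hd1
    obtain ⟨m2, l2, h2, q2⟩ := p2 d hd2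
    obtain ⟨m3, l3, h3, q3⟩ := p3 d hd3
    obtain ⟨m4, l4, h4, q4⟩ := p4 d hd4
    -- distance to `x` and `y`
    have key : ∀ (m : ℕ) (lo : ℕ), F.n ≤ lo →
        (∀ z < lo, d x y / 3 + min (d x z) (d y z) ≤ d m z) →
        d x y / 3 ≤ d x m ∧ d x y / 3 ≤ d y m := by
      intro m lo hlo hq
      have a1 := hq x (lt_of_lt_of_le hx hlo)
      have a2 := hq y (lt_of_lt_of_le hy hlo)
      rw [hs x m, hs y m]
      rw [hself x] at a1
      rw [hself y] at a2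
      have a3 : 0 ≤ min (0 : ℝ) (d y x) := le_min le_rfl (hnn _ _)
      have a4 : 0 ≤ min (d x y) (0 : ℝ) := le_min (hnn _ _) le_rfl
      constructor <;> linarith
    have k1 := key m1 F.n le_rfl q1
    have k2 := key m2 F1.n e1.1 q2
    have k3 := key m3 F2.n e12.1 q3
    have k4 := key m4 F3.n e13.1 q4
    -- mutual distances
    have mutd : ∀ (m m' lo : ℕ), m < lo → (∀ z < lo, d x y / 3 + min (d x z) (d y z) ≤ d m' z) →
        d x y / 3 ≤ d x m ∧ d x y / 3 ≤ d y m → 2 * d x y / 3 ≤ d m' m := by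
      intro m m' lo hm hq hk
      have := hq m hm
      have h5 : d x y / 3 ≤ min (d x m) (d y m) := le_min hk.1 hk.2
      linarith
    have hm12 : m1 < F1.n := h1
    have hm13 : m1 < F2.n := lt_of_lt_of_le h1 e2.1
    have hm14 : m1 < F3.n := lt_of_lt_of_le hm13 e3.1
    have hm24 : m2 < F3.n := lt_of_lt_of_le h2 e3.1
    have d21 := mutd m1 m2 F1.n hm12 q2 k1
    have d31 := mutd m1 m3 F2.n hm13 q3 k1
    have d32 := mutd m2 m3 F2.n h2 q3 k2
    have d41 := mutd m1 m4 F3.n hm14 q4 k1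
    have d42 := mutd m2 m4 F3.n hm24 q4 k2
    have d43 := mutd m3 m4 F3.n h3 q4 k3
    have hm1 : m1 ∈ Finset.Ico F.n F4.n := Finset.mem_Ico.2 ⟨l1, lt_of_lt_of_le hm14 e4.1⟩
    have hm2 : m2 ∈ Finset.Ico F.n F4.n :=
      Finset.mem_Ico.2 ⟨e1.1.trans l2, lt_of_lt_of_le hm24 e4.1⟩
    have hm3 : m3 ∈ Finset.Ico F.n F4.n :=
      Finset.mem_Ico.2 ⟨e12.1.trans l3, lt_of_lt_of_le h3 e4.1⟩
    have hm4 : m4 ∈ Finset.Ico F.n F4.n := Finset.mem_Ico.2 ⟨e13.1.trans l4, h4⟩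
    obtain ⟨r1, lr1, hr1, qr1⟩ := p5 d hd5 (m1, m2) (hL2 m1 hm1 m2 hm2 (by omega))
    obtain ⟨r2, lr2, hr2, qr2⟩ := p6 d hd6 (m3, m4) (hL2 m3 hm3 m4 hm4 (by omega))
    simp only at qr1 qr2
    -- r1 to m3 and m4
    have b3 := qr1 m3 (Finset.mem_Ico.1 hm3).2
    have b4 := qr1 m4 (Finset.mem_Ico.1 hm4).2
    have c3 : 2 * d x y / 3 ≤ min (d m1 m3) (d m2 m3) := by
      rw [hs m1 m3, hs m2 m3]; exact le_min d31 d32
    have c4 : 2 * d x y / 3 ≤ min (d m1 m4) (d m2 m4) := by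
      rw [hs m1 m4, hs m2 m4]; exact le_min d41 d42
    have hs12 := hs m1 m2
    have hs34 := hs m3 m4
    have e3' : 8 / 9 * d x y ≤ d r1 m3 := by linarith
    have e4' : 8 / 9 * d x y ≤ d r1 m4 := by linarith
    have f := qr2 r1 hr1
    have g' : 8 / 9 * d x y ≤ min (d m3 r1) (d m4 r1) := by
      rw [hs m3 r1, hs m4 r1]; exact le_min e3' e4'
    refine ⟨r2, r1, (e14.1.trans e5.1).trans lr2, hr2, e14.1.trans lr1,
      lt_of_lt_of_le hr1 e6.1, by omega, by linarith⟩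

/-- The property after `J` unrolled macro steps. -/
def UnrollProp (J : ℕ) (d : ℕ → ℕ → ℝ) (lo hi x y : ℕ) : Prop :=
  ∃ u v, (u = x ∨ u = y ∨ (lo ≤ u ∧ u < hi)) ∧ (v = x ∨ v = y ∨ (lo ≤ v ∧ v < hi)) ∧
    u ≠ v ∧ (10 / 9) ^ J * d x y ≤ d u v

theorem unrollProp_mono (J : ℕ) : ∀ d lo hi lo' hi' x y, lo' ≤ lo → hi ≤ hi' →
    UnrollProp J d lo hi x y → UnrollProp J d lo' hi' x y := by
  rintro d lo hi lo' hi' x y h1 h2 ⟨u, v, h3, h4, h5, h6⟩
  refine ⟨u, v, ?_, ?_, h5, h6⟩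
  · rcases h3 with h | h | h
    · exact Or.inl h
    · exact Or.inr (Or.inl h)
    · exact Or.inr (Or.inr ⟨h1.trans h.1, lt_of_lt_of_le h.2 h2⟩)
  · rcases h4 with h | h | h
    · exact Or.inl h
    · exact Or.inr (Or.inl h)
    · exact Or.inr (Or.inr ⟨h1.trans h.1, lt_of_lt_of_le h.2 h2⟩)

theorem unroll {α : ℕ} (N : ℕ) (hN1 : 1 ≤ N) (hN : ∀ (F : Frame α) (x y : ℕ),
    x < F.n → y < F.n → x ≠ y →
      ∃ F' : Frame α, Ext F F' ∧ F'.n ≤ F.n + N ∧ ∀ d, Adm F' d →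
        ∃ u v, F.n ≤ u ∧ u < F'.n ∧ F.n ≤ v ∧ v < F'.n ∧ u ≠ v ∧ 10 / 9 * d x y ≤ d u v) :
    ∀ (J : ℕ) (F : Frame α) (x y : ℕ), x < F.n → y < F.n → x ≠ y →
      ∃ F' : Frame α, Ext F F' ∧ F'.n ≤ F.n + (N ^ 2 + N) ^ J ∧ ∀ d, Adm F' d →
        UnrollProp J d F.n F'.n x y := by
  intro J
  induction J with
  | zero =>
    intro F x y hx hy hxy
    refine ⟨F, Ext.refl F, by simp, fun d _ => ⟨x, y, Or.inl rfl, Or.inr (Or.inl rfl), hxy, ?_⟩⟩
    simp
  | succ J ih =>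
    intro F x y hx hy hxy
    obtain ⟨F1, e1, n1, p1⟩ := hN F x y hx hy hxy
    obtain ⟨L, hLlen, hL1, hL2⟩ := pairs_list (Finset.Ico F.n F1.n)
    have hcard : (Finset.Ico F.n F1.n).card ≤ N := by
      rw [Nat.card_Ico]; omega
    have hLlen' : L.length ≤ N ^ 2 := hLlen.trans (Nat.pow_le_pow_left hcard 2)
    obtain ⟨F2, e2, n2, p2⟩ := list_step ((N ^ 2 + N) ^ J) (UnrollProp J) (unrollProp_mono J) ih
      L F1 (by
        intro p hp
        obtain ⟨h1, h2, h3⟩ := hL1 p hp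
        exact ⟨(Finset.mem_Ico.1 h1).2, (Finset.mem_Ico.1 h2).2, h3⟩)
    refine ⟨F2, e1.trans e2, ?_, ?_⟩
    · have h1 : (N ^ 2 + N) ^ J * L.length ≤ (N ^ 2 + N) ^ J * N ^ 2 :=
        Nat.mul_le_mul_left _ hLlen'
      have h2 : 1 ≤ (N ^ 2 + N) ^ J := Nat.one_le_pow _ _ (by omega)
      have h3 : N ≤ (N ^ 2 + N) ^ J * N := Nat.le_mul_of_pos_left _ h2
      have h4 : (N ^ 2 + N) ^ (J + 1) = (N ^ 2 + N) ^ J * N ^ 2 + (N ^ 2 + N) ^ J * N := by
        rw [pow_succ]; ring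
      omega
    · intro d hd
      obtain ⟨u, v, h1, h2, h3, h4, h5, h6⟩ := p1 d (e2.2 d hd)
      have hu : u ∈ Finset.Ico F.n F1.n := Finset.mem_Ico.2 ⟨h1, h2⟩
      have hv : v ∈ Finset.Ico F.n F1.n := Finset.mem_Ico.2 ⟨h3, h4⟩
      obtain ⟨u', v', h7, h8, h9, h10⟩ := p2 d hd (u, v) (hL2 u hu v hv h5)
      simp only at h7 h8 h10
      have hle := e2.1
      have hle1 := e1.1
      refine ⟨u', v', Or.inr (Or.inr ?_), Or.inr (Or.inr ?_), h9, ?_⟩
      · rcases h7 with rfl | rfl | h <;> omega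
      · rcases h8 with rfl | rfl | h <;> omega
      · calc (10 / 9 : ℝ) ^ (J + 1) * d x y = (10 / 9) ^ J * (10 / 9 * d x y) := by
              rw [pow_succ]; ring
          _ ≤ (10 / 9) ^ J * d u v := by
              apply mul_le_mul_of_nonneg_left h6
              positivity
          _ ≤ d u' v' := h10

theorem enum_finset (C : Finset ℕ) (hC : C.Nonempty) (m : ℕ) (hm : C.card ≤ m) :
    ∃ τ : Fin m → ℕ, (∀ j, τ j ∈ C) ∧ ∀ x ∈ C, ∃ j, τ j = x := by
  obtain ⟨c, hc⟩ := hC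
  refine ⟨fun j => if h : (j : ℕ) < C.card then (C.equivFin.symm ⟨j, h⟩ : ℕ) else c, ?_, ?_⟩
  · intro j
    by_cases h : (j : ℕ) < C.card
    · simp only [h, dif_pos]
      exact (C.equivFin.symm ⟨j, h⟩).2
    · simp only [h, dif_neg, not_false_iff]
      exact hc
  · intro x hx
    have h1 : ((C.equivFin ⟨x, hx⟩ : Fin C.card) : ℕ) < C.card := (C.equivFin ⟨x, hx⟩).2
    refine ⟨⟨C.equivFin ⟨x, hx⟩, lt_of_lt_of_le h1 hm⟩, ?_⟩
    simp only [h1, dif_pos, Fin.eta, Equiv.symm_apply_apply]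

theorem reduction_step (hR : ReductionGadget) (α q : ℕ) (hq : 1 ≤ q) : ∃ k₀ : ℕ, ∀ m R : ℕ,
    1 ≤ m → (2 * m) ^ (2 * α + 1) ≤ q ^ R → ∃ N : ℕ, ∀ (F : Frame α) (C : Finset ℕ),
      C.Nonempty → C.card ≤ m → (∀ x ∈ C, x < F.n) →
      ∃ F' : Frame α, Ext F F' ∧ F'.n ≤ F.n + N ∧ ∃ C' : Finset ℕ, C'.Nonempty ∧ C'.card ≤ k₀ ∧
        (∀ x ∈ C', x < F'.n) ∧ ∀ d, Adm F' d →
          ∃ u' ∈ C', ∃ v' ∈ C', ∀ u ∈ C, ∀ v ∈ C, d u v ≤ 2 ^ (R + 1) * d u' v' := by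
  classical
  obtain ⟨k₀, hk₀⟩ := hR α q hq
  refine ⟨k₀, fun m R hm hmR => ?_⟩
  obtain ⟨g, ⟨lay, hlayR, hseeds, hlay⟩, hports⟩ := hk₀ m R hm hmR
  refine ⟨g.N, fun F C hCne hCm hC => ?_⟩
  obtain ⟨τ, hτ1, hτ2⟩ := enum_finset C hCne m hCm
  have hτ : ∀ j, τ j < F.n := fun j => hC _ (hτ1 j)
  refine ⟨attach F g τ hτ, ext_attach F g τ hτ, le_rfl, ?_⟩
  set S : Finset (Fin g.N) := Finset.univ.filter (fun w => lay w = 0) with hS
  refine ⟨S.image (fun w : Fin g.N => F.n + (w : ℕ)), ?_, ?_, ?_, ?_⟩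
  · -- nonempty
    rw [Finset.image_nonempty]
    have hdesc : ∀ l : ℕ, ∀ w : Fin g.N, lay w = l → S.Nonempty := by
      intro l
      induction l with
      | zero => intro w hw; exact ⟨w, by rw [hS, mem_filter]; exact ⟨mem_univ _, hw⟩⟩
      | succ l ih =>
        intro w hw
        obtain ⟨a, b, _, _, _, h4, _⟩ := hlay w (by omega)
        exact ih a (by omega)
    obtain ⟨a, b, _, _, _⟩ := hports ⟨0, by omega⟩
    exact hdesc _ a rfl
  · exact card_image_le.trans hseeds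
  · intro x hx
    obtain ⟨w, _, rfl⟩ := Finset.mem_image.1 hx
    change F.n + (w : ℕ) < F.n + g.N
    omega
  · intro d hd
    have hS' : (S.image (fun w : Fin g.N => F.n + (w : ℕ))).Nonempty := by
      rw [Finset.image_nonempty]
      have hdesc : ∀ l : ℕ, ∀ w : Fin g.N, lay w = l → S.Nonempty := by
        intro l
        induction l with
        | zero => intro w hw; exact ⟨w, by rw [hS, mem_filter]; exact ⟨mem_univ _, hw⟩⟩
        | succ l ih =>
          intro w hw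
          obtain ⟨a, b, _, _, _, h4, _⟩ := hlay w (by omega)
          exact ih a (by omega)
      obtain ⟨a, b, _, _, _⟩ := hports ⟨0, by omega⟩
      exact hdesc _ a rfl
    set T : Finset ℕ := S.image (fun w : Fin g.N => F.n + (w : ℕ)) with hT
    obtain ⟨p, hp, hpmax⟩ := Finset.exists_max_image (T ×ˢ T) (fun p => d p.1 p.2)
      (hS'.product hS')
    rw [mem_product] at hp
    refine ⟨p.1, hp.1, p.2, hp.2, ?_⟩
    set δ : ℝ := d p.1 p.2 with hδ
    have hδ0 : 0 ≤ δ := hd.nonneg _ _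
    have hlayer : ∀ j : ℕ, ∀ w w' : Fin g.N, lay w ≤ j → lay w' ≤ j →
        d (F.n + w) (F.n + w') ≤ 2 ^ j * δ := by
      intro j
      induction j with
      | zero =>
        intro w w' hw hw'
        have h1 : F.n + (w : ℕ) ∈ T := Finset.mem_image.2
          ⟨w, by rw [hS, mem_filter]; exact ⟨mem_univ _, by omega⟩, rfl⟩
        have h2 : F.n + (w' : ℕ) ∈ T := Finset.mem_image.2
          ⟨w', by rw [hS, mem_filter]; exact ⟨mem_univ _, by omega⟩, rfl⟩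
        have := hpmax (F.n + (w : ℕ), F.n + (w' : ℕ)) (mem_product.2 ⟨h1, h2⟩)
        simpa using this
      | succ j ih =>
        have hclose : ∀ w : Fin g.N, lay w ≤ j + 1 → ∃ a : Fin g.N, lay a ≤ j ∧
            d (F.n + w) (F.n + a) ≤ 2 ^ j * δ / 2 := by
          intro w hw
          by_cases hwj : lay w ≤ j
          · refine ⟨w, hwj, ?_⟩
            rw [hd.self]
            positivity
          · obtain ⟨a, b, hab, h1, h2, h3, h4⟩ := hlay w (by omega)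
            have hb := hd.btw_new h1 h2 hab
            have hab' := ih a b (by omega) (by omega)
            have hs1 := hd.symm (F.n + w) (F.n + a)
            by_cases hc : d (F.n + w) (F.n + a) ≤ 2 ^ j * δ / 2
            · exact ⟨a, by omega, hc⟩
            · refine ⟨b, by omega, ?_⟩
              push Not at hc
              linarith
        intro w w' hw hw'
        obtain ⟨a, ha1, ha2⟩ := hclose w hw
        obtain ⟨a', ha1', ha2'⟩ := hclose w' hw'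
        have h1 := ih a a' ha1 ha1'
        have t1 := hd.tri (F.n + w) (F.n + a) (F.n + w')
        have t2 := hd.tri (F.n + a) (F.n + a') (F.n + w')
        have s1 := hd.symm (F.n + w') (F.n + a')
        have : (2 : ℝ) ^ (j + 1) * δ = 2 ^ j * δ * 2 := by rw [pow_succ]; ring
        linarith
    have hterm : ∀ u ∈ C, ∃ a : Fin g.N, d u (F.n + a) ≤ 2 ^ R * δ / 2 := by
      intro u hu
      obtain ⟨j, rfl⟩ := hτ2 u hu
      obtain ⟨a, b, hab, h1, h2⟩ := hports j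
      have hb := hd.btw_term h1 h2 hab
      have hab' := hlayer R a b (hlayR a) (hlayR b)
      have hs1 := hd.symm (τ j) (F.n + a)
      by_cases hc : d (τ j) (F.n + a) ≤ 2 ^ R * δ / 2
      · exact ⟨a, hc⟩
      · refine ⟨b, ?_⟩
        push Not at hc
        linarith
    intro u hu v hv
    obtain ⟨a, ha⟩ := hterm u hu
    obtain ⟨b, hb⟩ := hterm v hv
    have h1 := hlayer R a b (hlayR a) (hlayR b)
    have t1 := hd.tri u (F.n + a) v
    have t2 := hd.tri (F.n + a) (F.n + b) v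
    have s1 := hd.symm v (F.n + b)
    have : (2 : ℝ) ^ (R + 1) * δ = 2 ^ R * δ * 2 := by rw [pow_succ]; ring
    linarith

end Pool.Agent.Lib_helper88.Stretch
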