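import Pool.Agent.Lib_helper88.Stretch.Basic

/-!
# MP_548ab2_lc, module 1: adding long edges and layers
-/

namespace Pool.Agent.Lib_helper88.Stretch

open Finset

variable {V : Type*}

theorem Dk.mono {G G' : SimpleGraph V} (hG : ∀ a b, G.Adj a b → G'.Adj a b) {k : ℕ} {a b : V}
    (h : Dk G k a b) : Dk G' k a b := by
  induction h with
  | refl k a => exact Dk.refl k a
  | step hab _ ih => exact Dk.step (hG _ _ hab) ih

theorem Dk.mono_k {G : SimpleGraph V} {k k' : ℕ} (hk : k ≤ k') {a b : V}
    (h : Dk G k a b) : Dk G k' a b := by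
  induction h generalizing k' with
  | refl k a => exact Dk.refl k' a
  | @step k a b c hab _ ih =>
    obtain ⟨l, rfl⟩ : ∃ l, k' = l + 1 := ⟨k' - 1, by omega⟩
    exact Dk.step hab (ih (by omega))

theorem Dk.trans {G : SimpleGraph V} {j k : ℕ} {a b c : V}
    (h : Dk G j a b) (h' : Dk G k b c) : Dk G (j + k) a c := by
  induction h with
  | refl j a => exact h'.mono_k (by omega)
  | @step j a a' b hab _ ih =>
    have := Dk.step hab (ih h')
    exact this.mono_k (by omega)

theorem Dk.single {G : SimpleGraph V} {a b : V} (h : G.Adj a b) : Dk G 1 a b :=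
  Dk.step h (Dk.refl 0 b)

theorem Dk.symm {G : SimpleGraph V} {k : ℕ} {a b : V} (h : Dk G k a b) : Dk G k b a := by
  induction h with
  | refl k a => exact Dk.refl k a
  | @step k a a' b hab _ ih => exact ih.trans (Dk.single hab.symm)

theorem Dk.map {W : Type*} {G : SimpleGraph V} {G' : SimpleGraph W} (f : V → W)
    (hf : ∀ a b, G.Adj a b → G'.Adj (f a) (f b)) {k : ℕ} {a b : V} (h : Dk G k a b) :
    Dk G' k (f a) (f b) := by
  induction h with
  | refl k a => exact Dk.refl k _
  | step hab _ ih => exact Dk.step (hf _ _ hab) ih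

theorem dk_zero {G : SimpleGraph V} {a b : V} (h : Dk G 0 a b) : a = b := by
  cases h; rfl

theorem dk_succ {G : SimpleGraph V} {k : ℕ} {a b : V} :
    Dk G (k + 1) a b ↔ a = b ∨ ∃ a', G.Adj a a' ∧ Dk G k a' b := by
  constructor
  · intro h
    cases h with
    | refl => exact Or.inl rfl
    | step hab h => exact Or.inr ⟨_, hab, h⟩
  · rintro (rfl | ⟨a', h, h'⟩)
    · exact Dk.refl _ _
    · exact Dk.step h h'

/-- A walk in `G + cd` is a walk in `G` or splits at its first and last use of `cd`. -/
theorem dk_addE {G : SimpleGraph V} {c d : V} (h : c ≠ d) {k : ℕ} {p q : V}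
    (hpq : Dk (addE G c d h) k p q) :
    Dk G k p q ∨ (∃ i j, i + j + 1 ≤ k ∧ Dk G i p c ∧ Dk G j d q) ∨
      (∃ i j, i + j + 1 ≤ k ∧ Dk G i p d ∧ Dk G j c q) := by
  induction hpq with
  | refl k a => exact Or.inl (Dk.refl k a)
  | @step k a b q hab _ ih =>
    rcases hab with hab | ⟨rfl, rfl⟩ | ⟨rfl, rfl⟩
    · rcases ih with ih | ⟨i, j, hij, h1, h2⟩ | ⟨i, j, hij, h1, h2⟩
      · exact Or.inl (Dk.step hab ih)
      · exact Or.inr (Or.inl ⟨i + 1, j, by omega, Dk.step hab h1, h2⟩)
      · exact Or.inr (Or.inr ⟨i + 1, j, by omega, Dk.step hab h1, h2⟩)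
    · rcases ih with ih | ⟨i, j, hij, h1, h2⟩ | ⟨i, j, hij, h1, h2⟩
      · exact Or.inr (Or.inl ⟨0, k, by omega, Dk.refl _ _, ih⟩)
      · exact Or.inr (Or.inl ⟨0, j, by omega, Dk.refl _ _, h2⟩)
      · exact Or.inl (h2.mono_k (by omega))
    · rcases ih with ih | ⟨i, j, hij, h1, h2⟩ | ⟨i, j, hij, h1, h2⟩
      · exact Or.inr (Or.inr ⟨0, k, by omega, Dk.refl _ _, ih⟩)
      · exact Or.inl (h2.mono_k (by omega))
      · exact Or.inr (Or.inr ⟨0, j, by omega, Dk.refl _ _, h2⟩)

theorem del_le {G : SimpleGraph V} {v a b : V} (h : (del G v).Adj a b) : G.Adj a b := h.1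

/-- Adding an edge between vertices at distance at least `k + 2` keeps `NoShort k`. -/
theorem noShort_addE {k : ℕ} {G : SimpleGraph V} {c d : V} (h : c ≠ d) (hN : NoShort k G)
    (hfar : ¬ Dk G (k + 1) c d) : NoShort k (addE G c d h) := by
  intro v p q hvp hvq hpq hD
  -- the edge `cd` is not used by walks avoiding `c` or `d`
  have key : (v = c ∨ v = d) → ∀ {k : ℕ} {a b : V}, Dk (del (addE G c d h) v) k a b →
      Dk (del G v) k a b := by
    intro hv k a b hab
    refine hab.mono ?_
    rintro x y ⟨hxy | ⟨rfl, rfl⟩ | ⟨rfl, rfl⟩, hx, hy⟩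
    · exact ⟨hxy, hx, hy⟩
    · rcases hv with rfl | rfl
      · exact absurd rfl hx
      · exact absurd rfl hy
    · rcases hv with rfl | rfl
      · exact absurd rfl hy
      · exact absurd rfl hx
  rcases hvp with hvp | ⟨rfl, rfl⟩ | ⟨rfl, rfl⟩
  · rcases hvq with hvq | ⟨rfl, rfl⟩ | ⟨rfl, rfl⟩
    · -- both old edges
      by_cases hv : v = c ∨ v = d
      · exact hN v p q hvp hvq hpq (key hv hD)
      · push Not at hv
        have hD' : Dk (addE (del G v) c d h) k p q := by
          refine hD.mono ?_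
          rintro x y ⟨hxy | ⟨rfl, rfl⟩ | ⟨rfl, rfl⟩, hx, hy⟩
          · exact Or.inl ⟨hxy, hx, hy⟩
          · exact Or.inr (Or.inl ⟨rfl, rfl⟩)
          · exact Or.inr (Or.inr ⟨rfl, rfl⟩)
        rcases dk_addE h hD' with h1 | ⟨i, j, hij, h1, h2⟩ | ⟨i, j, hij, h1, h2⟩
        · exact hN v p q hvp hvq hpq h1
        · -- c ⇝ p → v → q ⇝ d
          apply hfar
          have h1' : Dk G i p c := h1.mono (fun _ _ => del_le)
          have h2' : Dk G j d q := h2.mono (fun _ _ => del_le)
          have := ((h1'.symm.trans (Dk.single hvp.symm)).trans (Dk.single hvq)).trans h2'.symm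
          exact this.mono_k (by omega)
        · apply hfar
          have h1' : Dk G i p d := h1.mono (fun _ _ => del_le)
          have h2' : Dk G j c q := h2.mono (fun _ _ => del_le)
          have := ((h2'.trans (Dk.single hvq.symm)).trans (Dk.single hvp)).trans h1'
          exact this.mono_k (by omega)
    · -- v = c, q = d
      have h1 := (key (Or.inl rfl) hD).mono (G' := G) (fun _ _ => del_le)
      exact hfar (((Dk.single hvp).trans h1).mono_k (by omega))
    · -- v = d, q = c
      have h1 := (key (Or.inr rfl) hD).mono (G' := G) (fun _ _ => del_le)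
      exact hfar ((h1.symm.trans (Dk.single hvp.symm)).mono_k (by omega))
  · -- v = c, p = d
    rcases hvq with hvq | ⟨_, rfl⟩ | ⟨h1, _⟩
    · have h1 := (key (Or.inl rfl) hD).mono (G' := G) (fun _ _ => del_le)
      exact hfar ((((Dk.single hvq).trans h1.symm)).mono_k (by omega))
    · exact hpq rfl
    · exact h h1
  · rcases hvq with hvq | ⟨h1, _⟩ | ⟨_, rfl⟩
    · have h1 := (key (Or.inr rfl) hD).mono (G' := G) (fun _ _ => del_le)
      exact hfar ((h1.trans (Dk.single hvq.symm)).mono_k (by omega))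
    · exact h h1.symm
    · exact hpq rfl

open Classical in
/-- The ball bound in a graph of maximum degree at most `Δ`. -/
theorem ball_card [Fintype V] (G : SimpleGraph V) (Δ : ℕ)
    (hdeg : ∀ v, (Finset.univ.filter (fun u => G.Adj v u)).card ≤ Δ) (k : ℕ) :
    ∀ a : V, (Finset.univ.filter (fun b => Dk G k a b)).card ≤ (Δ + 1) ^ k := by
  induction k with
  | zero =>
    intro a
    have : (Finset.univ.filter (fun b => Dk G 0 a b)) ⊆ {a} := by
      intro b hb
      simp only [mem_filter, mem_univ, true_and] at hb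
      simp [dk_zero hb]
    simpa using card_le_card this
  | succ k ih =>
    intro a
    have hsub : (Finset.univ.filter (fun b => Dk G (k + 1) a b)) ⊆
        (Finset.univ.filter (fun b => Dk G k a b)) ∪
        (Finset.univ.filter (fun u => G.Adj a u)).biUnion
          (fun u => Finset.univ.filter (fun b => Dk G k u b)) := by
      intro b hb
      simp only [mem_filter, mem_univ, true_and] at hb
      rcases dk_succ.1 hb with rfl | ⟨a', h1, h2⟩
      · simp [Dk.refl]
      · simp only [mem_union, mem_filter, mem_univ, true_and, mem_biUnion]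
        exact Or.inr ⟨a', h1, h2⟩
    calc (Finset.univ.filter (fun b => Dk G (k + 1) a b)).card
        ≤ _ := card_le_card hsub
      _ ≤ (Finset.univ.filter (fun b => Dk G k a b)).card + _ := card_union_le _ _
      _ ≤ (Δ + 1) ^ k + (Finset.univ.filter (fun u => G.Adj a u)).card * (Δ + 1) ^ k := by
          apply Nat.add_le_add (ih a)
          exact card_biUnion_le_card_mul _ _ _ (fun u _ => ih u)
      _ ≤ (Δ + 1) ^ k + Δ * (Δ + 1) ^ k := by
          apply Nat.add_le_add_left
          exact Nat.mul_le_mul_right _ (hdeg a)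
      _ = (Δ + 1) ^ (k + 1) := by ring

end Pool.Agent.Lib_helper88.Stretch
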